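import Mathlib
import Pool.Agent.Lib.ExtComplexity

/-!
# The condition number of a linear program is at least the square root of its dimensions

Let `C(d)` be Renegar's condition number of a linear program `d` with `m` constraints and `n`
variables. If `d` is feasible then `m ≤ C(d) ^ 2`; if its dual is feasible then `n ≤ C(d) ^ 2`; if
neither is feasible then `C(d) = ∞`. So `m + n ≤ 2 C(d) ^ 2` for every program with an optimal
solution. For `2 n ≤ m` there is such a program with `C(d) ^ 2 ≤ 2 m`.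
-/

namespace Pool.Agent.Results.MP_5f1c40_lc.DimensionBound

open Finset Filter Topology

/-- Data of the linear program: maximise `c x` subject to `A x ≤ b`; rows indexed by `ι`,
variables indexed by `κ`. -/
structure LP (ι κ : Type) where
  A : ι → κ → ℝ
  b : ι → ℝ
  c : κ → ℝ

namespace LP

variable {ι κ : Type} [Fintype ι] [Fintype κ]

/-- Frobenius norm of the block matrix with blocks `A`, `b`, `c`, `0`. -/
noncomputable def norm (d : LP ι κ) : ℝ :=
  Real.sqrt ((∑ i, ∑ j, d.A i j ^ 2) + (∑ i, d.b i ^ 2) + ∑ j, d.c j ^ 2)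

/-- The perturbed data `d + e`. -/
def add (d e : LP ι κ) : LP ι κ where
  A := fun i j => d.A i j + e.A i j
  b := fun i => d.b i + e.b i
  c := fun j => d.c j + e.c j

/-- `x` satisfies the constraints `A x ≤ b`. -/
def Feasible (d : LP ι κ) (x : κ → ℝ) : Prop := ∀ i, ∑ j, d.A i j * x j ≤ d.b i

/-- The primal program has a feasible point. -/
def PrimalFeasible (d : LP ι κ) : Prop := ∃ x, d.Feasible x

/-- The dual program has a feasible point `y ≥ 0` with `Aᵀ y = c`. -/
def DualFeasible (d : LP ι κ) : Prop :=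
  ∃ y : ι → ℝ, (∀ i, 0 ≤ y i) ∧ ∀ j, ∑ i, d.A i j * y i = d.c j

/-- Distance to a change of the primal feasibility status. -/
noncomputable def rhoP (d : LP ι κ) : ENNReal :=
  ⨅ e : LP ι κ, ⨅ _ : ¬ ((d.add e).PrimalFeasible ↔ d.PrimalFeasible), ENNReal.ofReal e.norm

/-- Distance to a change of the dual feasibility status. -/
noncomputable def rhoD (d : LP ι κ) : ENNReal :=
  ⨅ e : LP ι κ, ⨅ _ : ¬ ((d.add e).DualFeasible ↔ d.DualFeasible), ENNReal.ofReal e.norm

/-- Renegar's condition number; it is infinite if the distance to ill-posedness is zero. -/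
noncomputable def cond (d : LP ι κ) : ENNReal := by
  classical
  exact if min d.rhoP d.rhoD = 0 then ⊤ else ENNReal.ofReal d.norm / min d.rhoP d.rhoD

/-- `x` is an optimal solution. -/
def IsOptimal (d : LP ι κ) (x : κ → ℝ) : Prop :=
  d.Feasible x ∧ ∀ x', d.Feasible x' → ∑ j, d.c j * x' j ≤ ∑ j, d.c j * x j

lemma rhoP_le {d : LP ι κ} (e : LP ι κ)
    (h : ¬ ((d.add e).PrimalFeasible ↔ d.PrimalFeasible)) : d.rhoP ≤ ENNReal.ofReal e.norm :=
  iInf_le_of_le e (iInf_le _ h)

lemma rhoD_le {d : LP ι κ} (e : LP ι κ)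
    (h : ¬ ((d.add e).DualFeasible ↔ d.DualFeasible)) : d.rhoD ≤ ENNReal.ofReal e.norm :=
  iInf_le_of_le e (iInf_le _ h)

/-- A limit argument. -/
lemma le_of_forall_pos (f : ℝ → ℝ) (hf : Continuous f) (r : ENNReal)
    (h : ∀ t : ℝ, 0 < t → r ≤ ENNReal.ofReal (f t)) : r ≤ ENNReal.ofReal (f 0) := by
  have h1 : Tendsto (fun t => ENNReal.ofReal (f t)) (𝓝[>] 0) (𝓝 (ENNReal.ofReal (f 0))) :=
    ((ENNReal.continuous_ofReal.comp hf).tendsto 0).mono_left nhdsWithin_le_nhds
  exact ge_of_tendsto h1 (eventually_nhdsWithin_of_forall fun t ht => h t ht)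

/-- The norm of the row `(A i, b i)` bounds `rhoP` if the program is feasible. -/
lemma rhoP_le_row [DecidableEq ι] {d : LP ι κ} (hd : d.PrimalFeasible) (i : ι) :
    d.rhoP ≤ ENNReal.ofReal (Real.sqrt ((∑ j, d.A i j ^ 2) + d.b i ^ 2)) := by
  have key := le_of_forall_pos (fun t => Real.sqrt ((∑ j, d.A i j ^ 2) + (d.b i + t) ^ 2))
    (by fun_prop) d.rhoP ?_
  · simpa using key
  intro t ht
  let e : LP ι κ := ⟨fun k j => if k = i then -d.A i j else 0,
    fun k => if k = i then -(d.b i + t) else 0, fun _ => 0⟩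
  have hn : e.norm = Real.sqrt ((∑ j, d.A i j ^ 2) + (d.b i + t) ^ 2) := by
    unfold norm
    congr 1
    have h1 : ∑ k, ∑ j, e.A k j ^ 2 = ∑ j, d.A i j ^ 2 := by
      rw [Finset.sum_eq_single i]
      · simp [e]
      · intro k _ hk
        simp [e, hk]
      · simp
    have h2 : ∑ k, e.b k ^ 2 = (d.b i + t) ^ 2 := by
      rw [Finset.sum_eq_single i]
      · simp only [e, if_true]
        ring
      · intro k _ hk
        simp [e, hk]
      · simp
    have h3 : ∑ j, e.c j ^ 2 = 0 := by simp [e]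
    rw [h1, h2, h3, add_zero]
  have := rhoP_le (d := d) e ?_
  · rwa [hn] at this
  · intro h
    obtain ⟨x, hx⟩ := h.2 hd
    have h4 := hx i
    simp only [add, e, if_true, add_neg_cancel, zero_mul, Finset.sum_const_zero] at h4
    linarith

/-- The norm of the column `(A j, c j)` bounds `rhoD` if the dual program is feasible. -/
lemma rhoD_le_col [DecidableEq κ] {d : LP ι κ} (hd : d.DualFeasible) (j : κ) :
    d.rhoD ≤ ENNReal.ofReal (Real.sqrt ((∑ i, d.A i j ^ 2) + d.c j ^ 2)) := by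
  have key := le_of_forall_pos (fun t => Real.sqrt ((∑ i, d.A i j ^ 2) + (d.c j + t) ^ 2))
    (by fun_prop) d.rhoD ?_
  · simpa using key
  intro t ht
  let e : LP ι κ := ⟨fun i k => if k = j then -d.A i j else 0, fun _ => 0,
    fun k => if k = j then -(d.c j + t) else 0⟩
  have hn : e.norm = Real.sqrt ((∑ i, d.A i j ^ 2) + (d.c j + t) ^ 2) := by
    unfold norm
    congr 1
    have h1 : ∑ i, ∑ k, e.A i k ^ 2 = ∑ i, d.A i j ^ 2 := by
      refine Finset.sum_congr rfl fun i _ => ?_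
      rw [Finset.sum_eq_single j]
      · simp [e]
      · intro k _ hk
        simp [e, hk]
      · simp
    have h2 : ∑ i, e.b i ^ 2 = 0 := by simp [e]
    have h3 : ∑ k, e.c k ^ 2 = (d.c j + t) ^ 2 := by
      rw [Finset.sum_eq_single j]
      · simp only [e, if_true]
        ring
      · intro k _ hk
        simp [e, hk]
      · simp
    rw [h1, h2, h3, add_zero]
  have := rhoD_le (d := d) e ?_
  · rwa [hn] at this
  · intro h
    obtain ⟨y, -, hy⟩ := h.2 hd
    have h4 := hy j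
    simp only [add, e, if_true, add_neg_cancel, zero_mul, Finset.sum_const_zero] at h4
    linarith

/-- From a bound of the distance to ill-posedness to a bound of the condition number. -/
lemma le_cond_sq {d : LP ι κ} (k : ℕ)
    (h : ∀ r : ℝ, 0 ≤ r → ENNReal.ofReal r ≤ min d.rhoP d.rhoD → (k : ℝ) * r ^ 2 ≤ d.norm ^ 2)
    (hfin : min d.rhoP d.rhoD ≠ ⊤) : (k : ENNReal) ≤ d.cond ^ 2 := by
  by_cases h0 : min d.rhoP d.rhoD = 0
  · have : d.cond = ⊤ := by
      unfold cond
      exact if_pos h0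
    rw [this]
    simp
  · have hc : d.cond = ENNReal.ofReal d.norm / min d.rhoP d.rhoD := by
      unfold cond
      exact if_neg h0
    set ρ := min d.rhoP d.rhoD with hρ
    have hr : ENNReal.ofReal ρ.toReal = ρ := ENNReal.ofReal_toReal hfin
    have hr0 : 0 < ρ.toReal := ENNReal.toReal_pos h0 hfin
    have h1 := h ρ.toReal hr0.le hr.le
    have hn : 0 ≤ d.norm := Real.sqrt_nonneg _
    rw [hc, ← hr, ← ENNReal.ofReal_div_of_pos hr0, ← ENNReal.ofReal_pow (by positivity)]
    rw [← ENNReal.ofReal_natCast]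
    apply ENNReal.ofReal_le_ofReal
    rw [div_pow, le_div_iff₀ (by positivity)]
    exact h1

lemma norm_sq (d : LP ι κ) :
    d.norm ^ 2 = (∑ i, ∑ j, d.A i j ^ 2) + (∑ i, d.b i ^ 2) + ∑ j, d.c j ^ 2 := by
  unfold norm
  rw [Real.sq_sqrt (by positivity)]

end LP

open LP

variable {m n : ℕ}

lemma primal_bound (d : LP (Fin m) (Fin n)) (hd : d.PrimalFeasible) :
    (m : ENNReal) ≤ d.cond ^ 2 := by
  rcases Nat.eq_zero_or_pos m with rfl | hm
  · simp
  refine le_cond_sq m ?_ ?_
  · intro r hr h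
    have h1 : ∀ i, r ^ 2 ≤ (∑ j, d.A i j ^ 2) + d.b i ^ 2 := by
      intro i
      have h2 := (h.trans (min_le_left _ _)).trans (rhoP_le_row hd i)
      have h3 := (ENNReal.ofReal_le_ofReal_iff (Real.sqrt_nonneg _)).1 h2
      calc r ^ 2 ≤ (Real.sqrt ((∑ j, d.A i j ^ 2) + d.b i ^ 2)) ^ 2 :=
            pow_le_pow_left₀ hr h3 2
        _ = _ := Real.sq_sqrt (by positivity)
    have h4 : ∑ _i : Fin m, r ^ 2 ≤ ∑ i, ((∑ j, d.A i j ^ 2) + d.b i ^ 2) :=
      Finset.sum_le_sum fun i _ => h1 i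
    rw [Finset.sum_const, Finset.card_univ, Fintype.card_fin, nsmul_eq_mul,
      Finset.sum_add_distrib] at h4
    rw [norm_sq]
    have h5 : 0 ≤ ∑ j, d.c j ^ 2 := by positivity
    linarith
  · exact ne_top_of_le_ne_top ENNReal.ofReal_ne_top
      ((min_le_left _ _).trans (rhoP_le_row hd ⟨0, hm⟩))

lemma dual_bound (d : LP (Fin m) (Fin n)) (hd : d.DualFeasible) :
    (n : ENNReal) ≤ d.cond ^ 2 := by
  rcases Nat.eq_zero_or_pos n with rfl | hn
  · simp
  refine le_cond_sq n ?_ ?_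
  · intro r hr h
    have h1 : ∀ j, r ^ 2 ≤ (∑ i, d.A i j ^ 2) + d.c j ^ 2 := by
      intro j
      have h2 := (h.trans (min_le_right _ _)).trans (rhoD_le_col hd j)
      have h3 := (ENNReal.ofReal_le_ofReal_iff (Real.sqrt_nonneg _)).1 h2
      calc r ^ 2 ≤ (Real.sqrt ((∑ i, d.A i j ^ 2) + d.c j ^ 2)) ^ 2 :=
            pow_le_pow_left₀ hr h3 2
        _ = _ := Real.sq_sqrt (by positivity)
    have h4 : ∑ _j : Fin n, r ^ 2 ≤ ∑ j, ((∑ i, d.A i j ^ 2) + d.c j ^ 2) :=
      Finset.sum_le_sum fun j _ => h1 j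
    rw [Finset.sum_const, Finset.card_univ, Fintype.card_fin, nsmul_eq_mul,
      Finset.sum_add_distrib, Finset.sum_comm] at h4
    rw [norm_sq]
    have h5 : 0 ≤ ∑ i, d.b i ^ 2 := by positivity
    linarith
  · exact ne_top_of_le_ne_top ENNReal.ofReal_ne_top
      ((min_le_right _ _).trans (rhoD_le_col hd ⟨0, hn⟩))

/-- Farkas: if the dual is not feasible, there is a direction `z` with `A z ≤ 0`, `c z > 0`. -/
lemma exists_dir (d : LP (Fin m) (Fin n)) (hd : ¬ d.DualFeasible) :
    ∃ z : Fin n → ℝ, (∀ i, ∑ j, d.A i j * z j ≤ 0) ∧ 0 < ∑ j, d.c j * z j := by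
  by_contra hcon
  push Not at hcon
  apply hd
  let a : Fin m → Module.Dual ℝ (Fin n → ℝ) := fun i =>
    ∑ j, (-d.A i j) • LinearMap.proj j
  let b : Module.Dual ℝ (Fin n → ℝ) := ∑ j, (-d.c j) • LinearMap.proj j
  have ha : ∀ i x, a i x = -∑ j, d.A i j * x j := by
    intro i x
    simp [a, LinearMap.sum_apply]
  have hb : ∀ x, b x = -∑ j, d.c j * x j := by
    intro x
    simp [b, LinearMap.sum_apply]
  obtain ⟨l, hl0, hl⟩ := Pool.Agent.Lib.ExtComplexity.farkas a b (by
    intro r hr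
    rw [hb]
    have := hcon r fun i => by
      have := hr i
      rw [ha] at this
      linarith
    linarith)
  refine ⟨l, hl0, fun j => ?_⟩
  have h1 := hl (Pi.single j 1)
  rw [hb] at h1
  simp only [ha] at h1
  have h2 : ∀ i, ∑ k, d.A i k * (Pi.single j 1 : Fin n → ℝ) k = d.A i j := by
    intro i
    simp [Pi.single_apply]
  have h3 : ∑ k, d.c k * (Pi.single j 1 : Fin n → ℝ) k = d.c j := by
    simp [Pi.single_apply]
  rw [h3] at h1
  simp only [h2] at h1
  have h4 : ∑ i, l i * -d.A i j = -∑ i, d.A i j * l i := by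
    rw [← Finset.sum_neg_distrib]
    exact Finset.sum_congr rfl fun _ _ => by ring
  rw [h4] at h1
  linarith

/-- If neither the program nor its dual is feasible, the condition number is infinite. -/
lemma cond_eq_top (d : LP (Fin m) (Fin n)) (hP : ¬ d.PrimalFeasible) (hD : ¬ d.DualFeasible) :
    d.cond = ⊤ := by
  obtain ⟨z, hz, hcz⟩ := exists_dir d hD
  have hz0 : 0 < ∑ j, z j * z j := by
    by_contra h
    push Not at h
    have h1 : ∑ j, z j * z j = 0 := le_antisymm h (Finset.sum_nonneg fun j _ => mul_self_nonneg _)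
    have h2 := (Finset.sum_eq_zero_iff_of_nonneg fun j _ => mul_self_nonneg (z j)).1 h1
    have h3 : ∑ j, d.c j * z j = 0 := Finset.sum_eq_zero fun j hj => by
      rw [mul_self_eq_zero.1 (h2 j hj), mul_zero]
    linarith
  have hrho : d.rhoP = 0 := by
    rw [← nonpos_iff_eq_zero]
    have key := le_of_forall_pos
      (fun t => Real.sqrt ((∑ _i : Fin m, ∑ j, (t * z j) ^ 2))) (by fun_prop) d.rhoP ?_
    · simpa using key
    intro t ht
    let e : LP (Fin m) (Fin n) := ⟨fun _ j => -(t * z j), fun _ => 0, fun _ => 0⟩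
    have hn : e.norm = Real.sqrt ((∑ _i : Fin m, ∑ j, (t * z j) ^ 2)) := by
      unfold LP.norm
      simp [e]
    have := rhoP_le (d := d) e ?_
    · rwa [hn] at this
    · intro h
      apply hP
      rw [← h]
      set M : ℝ := ∑ i, |d.b i| with hM
      have hM0 : 0 ≤ M := Finset.sum_nonneg fun i _ => abs_nonneg _
      refine ⟨fun j => M / (t * ∑ j, z j * z j) * z j, fun i => ?_⟩
      have h1 : ∑ j, (d.add e).A i j * (M / (t * ∑ j, z j * z j) * z j) =
          M / (t * ∑ j, z j * z j) * (∑ j, d.A i j * z j) - M := by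
        have h2 : ∑ j, (d.add e).A i j * (M / (t * ∑ j, z j * z j) * z j) =
            M / (t * ∑ j, z j * z j) * (∑ j, d.A i j * z j - t * ∑ j, z j * z j) := by
          rw [mul_sub, Finset.mul_sum, Finset.mul_sum, Finset.mul_sum, ← Finset.sum_sub_distrib]
          refine Finset.sum_congr rfl fun j _ => ?_
          simp only [LP.add, e]
          ring
        rw [h2, mul_sub, div_mul_cancel₀ _ (by positivity)]
      rw [h1]
      have h3 : M / (t * ∑ j, z j * z j) * (∑ j, d.A i j * z j) ≤ 0 :=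
        mul_nonpos_of_nonneg_of_nonpos (by positivity) (hz i)
      have h4 : -M ≤ d.b i := by
        have h5 : |d.b i| ≤ M := Finset.single_le_sum (f := fun i => |d.b i|)
          (fun _ _ => abs_nonneg _) (mem_univ i)
        have h6 := neg_abs_le (d.b i)
        linarith
      have h7 : (d.add e).b i = d.b i := by simp [LP.add, e]
      rw [h7]
      linarith
  unfold LP.cond
  exact if_pos (by rw [hrho]; simp)

/-- A program with an optimal solution has a feasible dual. -/
lemma dual_of_optimal (d : LP (Fin m) (Fin n)) {x : Fin n → ℝ} (hx : d.IsOptimal x) :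
    d.DualFeasible := by
  by_contra hD
  obtain ⟨z, hz, hcz⟩ := exists_dir d hD
  have h1 := hx.2 (fun j => x j + z j) fun i => by
    have h2 : ∑ j, d.A i j * (x j + z j) = ∑ j, d.A i j * x j + ∑ j, d.A i j * z j := by
      rw [← Finset.sum_add_distrib]
      exact Finset.sum_congr rfl fun _ _ => by ring
    rw [h2]
    have := hx.1 i
    have := hz i
    linarith
  have h2 : ∑ j, d.c j * (x j + z j) = ∑ j, d.c j * x j + ∑ j, d.c j * z j := by
    rw [← Finset.sum_add_distrib]
    exact Finset.sum_congr rfl fun _ _ => by ring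
  linarith

/-! ### An example -/

/-- The program with the rows `x_j ≤ 1` and `-x_j ≤ 1`, followed by `m - 2 n` rows `0 ≤ 1`, and
with `c = 0`. -/
def ex (m n : ℕ) : LP (Fin m) (Fin n) where
  A := fun i j => if (i : ℕ) = 2 * j then 1 else if (i : ℕ) = 2 * j + 1 then -1 else 0
  b := fun _ => 1
  c := fun _ => 0

lemma sum_ite_le (N k : ℕ) : ∑ i : Fin N, (if (i : ℕ) = k then (1 : ℝ) else 0) ≤ 1 := by
  by_cases hk : k < N
  · rw [Finset.sum_eq_single ⟨k, hk⟩]
    · simp
    · intro i _ hi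
      have : (i : ℕ) ≠ k := fun h => hi (Fin.ext h)
      simp [this]
    · simp
  · rw [Finset.sum_eq_zero]
    · norm_num
    · intro i _
      have : (i : ℕ) ≠ k := fun h => hk (h ▸ i.2)
      simp [this]

lemma ex_row (i : Fin m) : ∑ j, (ex m n).A i j ^ 2 ≤ 1 := by
  refine le_trans (Finset.sum_le_sum fun j _ => ?_) (sum_ite_le n ((i : ℕ) / 2))
  simp only [ex]
  split_ifs with h1 h2 h3 h4 <;> first | (exfalso; omega) | norm_num

lemma ex_col (j : Fin n) : ∑ i, (ex m n).A i j ^ 2 ≤ 2 := by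
  have h : ∑ i, (ex m n).A i j ^ 2 ≤
      ∑ i : Fin m, ((if (i : ℕ) = 2 * j then (1 : ℝ) else 0) +
        if (i : ℕ) = 2 * j + 1 then (1 : ℝ) else 0) := by
    refine Finset.sum_le_sum fun i _ => ?_
    simp only [ex]
    split_ifs <;> norm_num
  rw [Finset.sum_add_distrib] at h
  have h1 := sum_ite_le m (2 * (j : ℕ))
  have h2 := sum_ite_le m (2 * (j : ℕ) + 1)
  linarith

lemma ex_norm (h : 2 * n ≤ m) : (ex m n).norm ^ 2 ≤ 2 * m := by
  rw [norm_sq, Finset.sum_comm]
  have h1 : ∑ j : Fin n, ∑ i : Fin m, (ex m n).A i j ^ 2 ≤ ∑ _j : Fin n, (2 : ℝ) :=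
    Finset.sum_le_sum fun j _ => ex_col j
  have h2 : ∑ i : Fin m, (ex m n).b i ^ 2 = m := by simp [ex]
  have h3 : ∑ j : Fin n, (ex m n).c j ^ 2 = 0 := by simp [ex]
  rw [h2, h3]
  rw [Finset.sum_const, Finset.card_univ, Fintype.card_fin, nsmul_eq_mul] at h1
  have h4 : (2 : ℝ) * n ≤ m := by exact_mod_cast h
  linarith

lemma ex_primal (e : LP (Fin m) (Fin n)) (he : e.norm < 1) :
    ((ex m n).add e).PrimalFeasible := by
  refine ⟨fun _ => 0, fun i => ?_⟩
  have h1 : e.b i ^ 2 ≤ e.norm ^ 2 := by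
    rw [norm_sq]
    have h2 : e.b i ^ 2 ≤ ∑ i, e.b i ^ 2 :=
      Finset.single_le_sum (f := fun i => e.b i ^ 2) (fun _ _ => sq_nonneg _) (mem_univ i)
    have h3 : 0 ≤ ∑ i, ∑ j, e.A i j ^ 2 := by positivity
    have h4 : 0 ≤ ∑ j, e.c j ^ 2 := by positivity
    linarith
  have h5 : 0 ≤ e.norm := Real.sqrt_nonneg _
  have h6 := abs_le_of_sq_le_sq h1 h5
  have h7 := (abs_le.1 h6).1
  simp only [LP.add, ex, mul_zero, Finset.sum_const_zero]
  linarith

lemma ex_dual (h : 2 * n ≤ m) (e : LP (Fin m) (Fin n)) (he : e.norm < 1) :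
    ((ex m n).add e).DualFeasible := by
  by_contra hD
  obtain ⟨z, hz, hcz⟩ := exists_dir _ hD
  set Z : ℝ := ∑ j, z j ^ 2 with hZ
  have hZ0 : 0 < Z := by
    by_contra hcon
    push Not at hcon
    have h1 : ∑ j, z j ^ 2 = 0 := le_antisymm hcon (Finset.sum_nonneg fun j _ => sq_nonneg _)
    have h2 := (Finset.sum_eq_zero_iff_of_nonneg fun j _ => sq_nonneg (z j)).1 h1
    have h3 : ∑ j, ((ex m n).add e).c j * z j = 0 := Finset.sum_eq_zero fun j hj => by
      rw [pow_eq_zero_iff two_ne_zero |>.1 (h2 j hj), mul_zero]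
    linarith
  set S : Fin m → ℝ := fun i => ∑ k, e.A i k * z k with hS
  have hrow : ∀ i, (∑ k, (ex m n).A i k * z k) + S i ≤ 0 := by
    intro i
    have h1 := hz i
    have h2 : ∑ k, ((ex m n).add e).A i k * z k = (∑ k, (ex m n).A i k * z k) + S i := by
      rw [hS, ← Finset.sum_add_distrib]
      refine Finset.sum_congr rfl fun k _ => ?_
      simp only [LP.add]
      ring
    rwa [h2] at h1
  have hj : ∀ j, z j ^ 2 ≤ ∑ i, (ex m n).A i j ^ 2 * S i ^ 2 := by
    intro j
    have hj1 : 2 * (j : ℕ) < m := by have := j.2; omega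
    have hj2 : 2 * (j : ℕ) + 1 < m := by have := j.2; omega
    have e1 : ∑ k, (ex m n).A ⟨2 * j, hj1⟩ k * z k = z j := by
      rw [Finset.sum_eq_single j]
      · simp [ex]
      · intro k _ hk
        have hk' : (k : ℕ) ≠ j := fun hh => hk (Fin.ext hh)
        have c1 : ¬ (2 * (j : ℕ) = 2 * k) := by omega
        have c2 : ¬ (2 * (j : ℕ) = 2 * k + 1) := by omega
        simp only [ex]
        rw [if_neg c1, if_neg c2, zero_mul]
      · simp
    have e2 : ∑ k, (ex m n).A ⟨2 * j + 1, hj2⟩ k * z k = -z j := by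
      rw [Finset.sum_eq_single j]
      · have c1 : ¬ (2 * (j : ℕ) + 1 = 2 * j) := by omega
        simp only [ex]
        rw [if_neg c1, if_pos trivial]
        ring
      · intro k _ hk
        have hk' : (k : ℕ) ≠ j := fun hh => hk (Fin.ext hh)
        have c1 : ¬ (2 * (j : ℕ) + 1 = 2 * k) := by omega
        have c2 : ¬ (2 * (j : ℕ) + 1 = 2 * k + 1) := by omega
        simp only [ex]
        rw [if_neg c1, if_neg c2, zero_mul]
      · simp
    have r1 := hrow ⟨2 * j, hj1⟩
    have r2 := hrow ⟨2 * j + 1, hj2⟩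
    rw [e1] at r1
    rw [e2] at r2
    have s1 : (ex m n).A ⟨2 * j, hj1⟩ j ^ 2 * S ⟨2 * j, hj1⟩ ^ 2 ≤
        ∑ i, (ex m n).A i j ^ 2 * S i ^ 2 :=
      Finset.single_le_sum (f := fun i => (ex m n).A i j ^ 2 * S i ^ 2)
        (fun _ _ => by positivity) (mem_univ _)
    have s2 : (ex m n).A ⟨2 * j + 1, hj2⟩ j ^ 2 * S ⟨2 * j + 1, hj2⟩ ^ 2 ≤
        ∑ i, (ex m n).A i j ^ 2 * S i ^ 2 :=
      Finset.single_le_sum (f := fun i => (ex m n).A i j ^ 2 * S i ^ 2)
        (fun _ _ => by positivity) (mem_univ _)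
    have t1 : (ex m n).A ⟨2 * j, hj1⟩ j = 1 := by simp [ex]
    have t2 : (ex m n).A ⟨2 * j + 1, hj2⟩ j = -1 := by
      have c1 : ¬ (2 * (j : ℕ) + 1 = 2 * j) := by omega
      simp only [ex]
      rw [if_neg c1, if_pos trivial]
    rw [t1] at s1
    rw [t2] at s2
    rcases le_total 0 (z j) with h0 | h0
    · nlinarith
    · nlinarith
  have hsum : Z ≤ ∑ i, S i ^ 2 := by
    calc Z ≤ ∑ j, ∑ i, (ex m n).A i j ^ 2 * S i ^ 2 := Finset.sum_le_sum fun j _ => hj j
      _ = ∑ i, (∑ j, (ex m n).A i j ^ 2) * S i ^ 2 := by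
          rw [Finset.sum_comm]
          exact Finset.sum_congr rfl fun i _ => by rw [Finset.sum_mul]
      _ ≤ ∑ i, S i ^ 2 := Finset.sum_le_sum fun i _ => by
          have := ex_row (n := n) i
          nlinarith [sq_nonneg (S i)]
  have hCS : ∑ i, S i ^ 2 ≤ e.norm ^ 2 * Z := by
    calc ∑ i, S i ^ 2 ≤ ∑ i, (∑ k, e.A i k ^ 2) * Z :=
          Finset.sum_le_sum fun i _ => Finset.sum_mul_sq_le_sq_mul_sq _ _ _
      _ = (∑ i, ∑ k, e.A i k ^ 2) * Z := by rw [Finset.sum_mul]
      _ ≤ e.norm ^ 2 * Z := by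
          refine mul_le_mul_of_nonneg_right ?_ hZ0.le
          rw [norm_sq]
          have h3 : 0 ≤ ∑ i, e.b i ^ 2 := by positivity
          have h4 : 0 ≤ ∑ j, e.c j ^ 2 := by positivity
          linarith
  have h5 : 0 ≤ e.norm := Real.sqrt_nonneg _
  have h6 : e.norm ^ 2 < 1 := by nlinarith
  nlinarith

lemma ex_cond (h : 2 * n ≤ m) : (ex m n).cond ^ 2 ≤ 2 * m := by
  have hz : (⟨fun _ _ => 0, fun _ => 0, fun _ => 0⟩ : LP (Fin m) (Fin n)).norm < 1 := by
    simp [LP.norm]
  have hadd : (ex m n).add ⟨fun _ _ => 0, fun _ => 0, fun _ => 0⟩ = ex m n := by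
    simp [LP.add, ex]
  have hP0 : (ex m n).PrimalFeasible := by
    have := ex_primal _ hz
    rwa [hadd] at this
  have hD0 : (ex m n).DualFeasible := by
    have := ex_dual h _ hz
    rwa [hadd] at this
  have hP : 1 ≤ (ex m n).rhoP := by
    refine le_iInf fun e => le_iInf fun hne => ?_
    by_contra hlt
    rw [ENNReal.one_le_ofReal, not_le] at hlt
    exact hne ⟨fun _ => hP0, fun _ => ex_primal e hlt⟩
  have hD : 1 ≤ (ex m n).rhoD := by
    refine le_iInf fun e => le_iInf fun hne => ?_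
    by_contra hlt
    rw [ENNReal.one_le_ofReal, not_le] at hlt
    exact hne ⟨fun _ => hD0, fun _ => ex_dual h e hlt⟩
  have hmin : 1 ≤ min (ex m n).rhoP (ex m n).rhoD := le_min hP hD
  have hne : min (ex m n).rhoP (ex m n).rhoD ≠ 0 := (lt_of_lt_of_le zero_lt_one hmin).ne'
  have hc : (ex m n).cond ≤ ENNReal.ofReal (ex m n).norm := by
    have : (ex m n).cond = ENNReal.ofReal (ex m n).norm / min (ex m n).rhoP (ex m n).rhoD := by
      unfold LP.cond
      exact if_neg hne
    rw [this]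
    calc ENNReal.ofReal (ex m n).norm / min (ex m n).rhoP (ex m n).rhoD
        ≤ ENNReal.ofReal (ex m n).norm / 1 := ENNReal.div_le_div_left hmin _
      _ = _ := by simp
  calc (ex m n).cond ^ 2 ≤ ENNReal.ofReal (ex m n).norm ^ 2 := pow_le_pow_left' hc 2
    _ = ENNReal.ofReal ((ex m n).norm ^ 2) := by
        rw [ENNReal.ofReal_pow (show 0 ≤ (ex m n).norm from Real.sqrt_nonneg _)]
    _ ≤ ENNReal.ofReal (2 * m) := ENNReal.ofReal_le_ofReal (ex_norm h)
    _ = 2 * m := by
        rw [ENNReal.ofReal_mul (by norm_num)]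
        simp

/-- **Renegar's condition number and the dimensions.** For every linear program `d` with `m`
constraints and `n` variables: `m ≤ C(d) ^ 2` if `d` is feasible, `n ≤ C(d) ^ 2` if its dual is
feasible, `C(d) = ∞` if neither is feasible, and `m + n ≤ 2 C(d) ^ 2` if `d` has an optimal
solution. For `2 n ≤ m` some `d` with an optimal solution has `C(d) ^ 2 ≤ 2 m`. -/
theorem result :
    (∀ (m n : ℕ) (d : LP (Fin m) (Fin n)),
      (d.PrimalFeasible → (m : ENNReal) ≤ d.cond ^ 2) ∧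
      (d.DualFeasible → (n : ENNReal) ≤ d.cond ^ 2) ∧
      (¬ d.PrimalFeasible → ¬ d.DualFeasible → d.cond = ⊤) ∧
      ∀ x, d.IsOptimal x → ((m + n : ℕ) : ENNReal) ≤ 2 * d.cond ^ 2) ∧
    ∀ m n : ℕ, 2 * n ≤ m → ∃ d : LP (Fin m) (Fin n),
      (∃ x, d.IsOptimal x) ∧ d.cond ^ 2 ≤ 2 * m := by
  refine ⟨fun m n d => ⟨primal_bound d, dual_bound d, cond_eq_top d, fun x hx => ?_⟩,
    fun m n h => ⟨ex m n, ⟨fun _ => 0, ?_, ?_⟩, ex_cond h⟩⟩
  · have h1 := primal_bound d ⟨x, hx.1⟩
    have h2 := dual_bound d (dual_of_optimal d hx)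
    rw [Nat.cast_add, two_mul]
    exact add_le_add h1 h2
  · intro i
    simp [ex]
  · intro x' _
    simp [ex]

end Pool.Agent.Results.MP_5f1c40_lc.DimensionBound
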