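import Mathlib
import Pool.Agent.Lib.ExtComplexity

/-!
# Linear programs with at most as many constraints as variables

A well-posed linear program with `m ≤ n` constraints and `n` variables is feasible; it is unbounded
unless `m = n`, the matrix `A` is invertible and the solution `y` of `Aᵀ y = c` is nonnegative, and
then the solution of `A x = b` is the unique optimal solution. So one Gaussian elimination solves
it, whatever the condition number is.
-/

namespace Pool.Agent.Results.MP_5f1c40_lc.FewConstraints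

open Finset

/-- Data of the linear program: maximise `c x` subject to `A x ≤ b`; rows indexed by `ι`,
variables indexed by `κ`. -/
structure LP (ι κ : Type) where
  A : ι → κ → ℝ
  b : ι → ℝ
  c : κ → ℝ

namespace LP

variable {ι κ : Type} [Fintype ι] [Fintype κ]

/-- Frobenius norm of the block matrix with blocks `A`, `b`, `c`, `0`. -/
noncomputable def norm (d : LP ι κ) : ℝ :=
  Real.sqrt ((∑ i, ∑ j, d.A i j ^ 2) + (∑ i, d.b i ^ 2) + ∑ j, d.c j ^ 2)

/-- The perturbed data `d + e`. -/
def add (d e : LP ι κ) : LP ι κ where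
  A := fun i j => d.A i j + e.A i j
  b := fun i => d.b i + e.b i
  c := fun j => d.c j + e.c j

/-- `x` satisfies the constraints `A x ≤ b`. -/
def Feasible (d : LP ι κ) (x : κ → ℝ) : Prop := ∀ i, ∑ j, d.A i j * x j ≤ d.b i

/-- The primal program has a feasible point. -/
def PrimalFeasible (d : LP ι κ) : Prop := ∃ x, d.Feasible x

/-- The dual program has a feasible point `y ≥ 0` with `Aᵀ y = c`. -/
def DualFeasible (d : LP ι κ) : Prop :=
  ∃ y : ι → ℝ, (∀ i, 0 ≤ y i) ∧ ∀ j, ∑ i, d.A i j * y i = d.c j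

/-- Distance to a change of the primal feasibility status. -/
noncomputable def rhoP (d : LP ι κ) : ENNReal :=
  ⨅ e : LP ι κ, ⨅ _ : ¬ ((d.add e).PrimalFeasible ↔ d.PrimalFeasible), ENNReal.ofReal e.norm

/-- Distance to a change of the dual feasibility status. -/
noncomputable def rhoD (d : LP ι κ) : ENNReal :=
  ⨅ e : LP ι κ, ⨅ _ : ¬ ((d.add e).DualFeasible ↔ d.DualFeasible), ENNReal.ofReal e.norm

/-- Renegar's condition number; it is infinite if the distance to ill-posedness is zero. -/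
noncomputable def cond (d : LP ι κ) : ENNReal := by
  classical
  exact if min d.rhoP d.rhoD = 0 then ⊤ else ENNReal.ofReal d.norm / min d.rhoP d.rhoD

/-- `x` is an optimal solution. -/
def IsOptimal (d : LP ι κ) (x : κ → ℝ) : Prop :=
  d.Feasible x ∧ ∀ x', d.Feasible x' → ∑ j, d.c j * x' j ≤ ∑ j, d.c j * x j

/-- The objective takes arbitrarily large values on the feasible set. -/
def Unbounded (d : LP ι κ) : Prop := ∀ R : ℝ, ∃ x, d.Feasible x ∧ R ≤ ∑ j, d.c j * x j

lemma lt_of_cond {d : LP ι κ} (hd : d.cond < ⊤) : 0 < d.rhoP ∧ 0 < d.rhoD := by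
  have h : min d.rhoP d.rhoD ≠ 0 := by
    intro h
    have h2 : d.cond = ⊤ := by
      unfold cond
      exact if_pos h
    exact absurd hd (by rw [h2]; exact lt_irrefl _)
  exact lt_min_iff.1 (pos_iff_ne_zero.2 h)

/-- Small perturbations do not change the primal status. -/
lemma primal_iff {d : LP ι κ} (hd : d.cond < ⊤) :
    ∃ δ : ℝ, 0 < δ ∧ ∀ e : LP ι κ, e.norm < δ → ((d.add e).PrimalFeasible ↔ d.PrimalFeasible) := by
  obtain ⟨r, hr0, hr⟩ := ENNReal.lt_iff_exists_nnreal_btwn.1 (lt_of_cond hd).1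
  refine ⟨r, by exact_mod_cast hr0, fun e he => ?_⟩
  by_contra hcon
  have h1 : d.rhoP ≤ ENNReal.ofReal e.norm := iInf_le_of_le e (iInf_le _ hcon)
  have h2 : ENNReal.ofReal e.norm ≤ r := by
    rw [← ENNReal.ofReal_coe_nnreal]
    exact ENNReal.ofReal_le_ofReal he.le
  exact absurd (h1.trans h2) (not_le.2 hr)

/-- Small perturbations do not change the dual status. -/
lemma dual_iff {d : LP ι κ} (hd : d.cond < ⊤) :
    ∃ δ : ℝ, 0 < δ ∧ ∀ e : LP ι κ, e.norm < δ → ((d.add e).DualFeasible ↔ d.DualFeasible) := by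
  obtain ⟨r, hr0, hr⟩ := ENNReal.lt_iff_exists_nnreal_btwn.1 (lt_of_cond hd).2
  refine ⟨r, by exact_mod_cast hr0, fun e he => ?_⟩
  by_contra hcon
  have h1 : d.rhoD ≤ ENNReal.ofReal e.norm := iInf_le_of_le e (iInf_le _ hcon)
  have h2 : ENNReal.ofReal e.norm ≤ r := by
    rw [← ENNReal.ofReal_coe_nnreal]
    exact ENNReal.ofReal_le_ofReal he.le
  exact absurd (h1.trans h2) (not_le.2 hr)

/-- Perturbations of `c` in a fixed direction by a small factor. -/
lemma dual_dir {d : LP ι κ} (hd : d.cond < ⊤) (hD : d.DualFeasible) (f : κ → ℝ) :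
    ∃ t : ℝ, 0 < t ∧ ∃ y : ι → ℝ, (∀ i, 0 ≤ y i) ∧ ∀ j, ∑ i, d.A i j * y i = d.c j + t * f j := by
  obtain ⟨δ, hδ, h⟩ := dual_iff hd
  set S : ℝ := Real.sqrt (∑ j, f j ^ 2) with hS
  have hS0 : 0 ≤ S := Real.sqrt_nonneg _
  refine ⟨δ / (2 * (S + 1)), by positivity, ?_⟩
  set t : ℝ := δ / (2 * (S + 1)) with ht
  have ht0 : 0 < t := by positivity
  have hn : (⟨fun _ _ => 0, fun _ => 0, fun j => t * f j⟩ : LP ι κ).norm = t * S := by
    have h1 : (∑ _i : ι, ∑ _j : κ, (0 : ℝ) ^ 2) + (∑ _i : ι, (0 : ℝ) ^ 2) +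
        ∑ j, (t * f j) ^ 2 = t ^ 2 * ∑ j, f j ^ 2 := by
      simp [mul_pow, Finset.mul_sum]
    unfold norm
    rw [h1, Real.sqrt_mul (sq_nonneg t), Real.sqrt_sq ht0.le]
  have hlt : (⟨fun _ _ => 0, fun _ => 0, fun j => t * f j⟩ : LP ι κ).norm < δ := by
    rw [hn, ht, div_mul_eq_mul_div, div_lt_iff₀ (by positivity)]
    nlinarith
  obtain ⟨y, hy0, hy⟩ := (h _ hlt).2 hD
  refine ⟨y, hy0, fun j => ?_⟩
  have := hy j
  simpa [add] using this

/-- If the dual program is feasible, `Aᵀ` is onto. -/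
lemma transpose_onto {d : LP ι κ} (hd : d.cond < ⊤) (hD : d.DualFeasible) (f : κ → ℝ) :
    ∃ y : ι → ℝ, ∀ j, ∑ i, d.A i j * y i = f j := by
  obtain ⟨t, ht, y, -, hy⟩ := dual_dir hd hD f
  obtain ⟨y₀, -, hy₀⟩ := hD
  refine ⟨fun i => t⁻¹ * (y i - y₀ i), fun j => ?_⟩
  have h1 : ∑ i, d.A i j * (t⁻¹ * (y i - y₀ i)) =
      t⁻¹ * (∑ i, d.A i j * y i - ∑ i, d.A i j * y₀ i) := by
    rw [← Finset.sum_sub_distrib, Finset.mul_sum]
    exact Finset.sum_congr rfl fun _ _ => by ring
  rw [h1, hy, hy₀]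
  field_simp
  ring

lemma injective_of_dual {d : LP ι κ} (hd : d.cond < ⊤) (hD : d.DualFeasible) (x : κ → ℝ)
    (hx : ∀ i, ∑ j, d.A i j * x j = 0) : x = 0 := by
  obtain ⟨y, hy⟩ := transpose_onto hd hD x
  have h1 : ∑ j, x j * x j = 0 := by
    calc ∑ j, x j * x j = ∑ j, (∑ i, d.A i j * y i) * x j :=
          Finset.sum_congr rfl fun j _ => by rw [hy]
      _ = ∑ i, y i * ∑ j, d.A i j * x j := by
          simp only [Finset.sum_mul, Finset.mul_sum]
          rw [Finset.sum_comm]
          exact Finset.sum_congr rfl fun _ _ => Finset.sum_congr rfl fun _ _ => by ring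
      _ = 0 := by simp [hx]
  funext j
  have h2 := (Finset.sum_eq_zero_iff_of_nonneg fun j _ => mul_self_nonneg (x j)).1 h1 j (mem_univ j)
  simpa using h2

/-- Weak duality. -/
lemma weak {d : LP ι κ} {y : ι → ℝ} (hy : ∀ j, ∑ i, d.A i j * y i = d.c j)
    (x : κ → ℝ) : ∑ j, d.c j * x j = ∑ i, y i * ∑ j, d.A i j * x j := by
  calc ∑ j, d.c j * x j = ∑ j, (∑ i, d.A i j * y i) * x j :=
        Finset.sum_congr rfl fun j _ => by rw [hy]
    _ = ∑ i, y i * ∑ j, d.A i j * x j := by
        simp only [Finset.sum_mul, Finset.mul_sum]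
        rw [Finset.sum_comm]
        exact Finset.sum_congr rfl fun _ _ => Finset.sum_congr rfl fun _ _ => by ring

end LP

open LP

variable {m n : ℕ}

lemma unbounded_iff (d : LP (Fin m) (Fin n)) (hP : d.PrimalFeasible) :
    d.Unbounded ↔ ¬ d.DualFeasible := by
  constructor
  · rintro hU ⟨y, hy0, hy⟩
    obtain ⟨x, hx, hR⟩ := hU (∑ i, y i * d.b i + 1)
    rw [weak hy x] at hR
    have : ∑ i, y i * ∑ j, d.A i j * x j ≤ ∑ i, y i * d.b i :=
      Finset.sum_le_sum fun i _ => mul_le_mul_of_nonneg_left (hx i) (hy0 i)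
    linarith
  · intro hD R
    by_contra hcon
    push Not at hcon
    apply hD
    let a : Fin m → Module.Dual ℝ (Fin n → ℝ) := fun i =>
      ∑ j, (-d.A i j) • LinearMap.proj j
    let b : Module.Dual ℝ (Fin n → ℝ) := ∑ j, (-d.c j) • LinearMap.proj j
    have ha : ∀ i x, a i x = -∑ j, d.A i j * x j := by
      intro i x
      simp [a, LinearMap.sum_apply]
    have hb : ∀ x, b x = -∑ j, d.c j * x j := by
      intro x
      simp [b, LinearMap.sum_apply]
    obtain ⟨x₀, hx₀⟩ := hP
    obtain ⟨l, hl0, hl⟩ := Pool.Agent.Lib.ExtComplexity.farkas a b (by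
      intro r hr
      rw [hb]
      by_contra hneg
      push Not at hneg
      have hpos : 0 < ∑ j, d.c j * r j := by linarith
      set s : ℝ := (|R| + |∑ j, d.c j * x₀ j|) / ∑ j, d.c j * r j with hs
      have hs0 : 0 ≤ s := by positivity
      refine absurd (hcon (fun j => x₀ j + s * r j) fun i => ?_) (not_lt.2 ?_)
      · have h1 : ∑ j, d.A i j * (x₀ j + s * r j) =
            ∑ j, d.A i j * x₀ j + s * ∑ j, d.A i j * r j := by
          rw [Finset.mul_sum, ← Finset.sum_add_distrib]
          exact Finset.sum_congr rfl fun _ _ => by ring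
        rw [h1]
        have h2 := hr i
        rw [ha] at h2
        have h3 := hx₀ i
        nlinarith
      · have h1 : ∑ j, d.c j * (x₀ j + s * r j) =
            ∑ j, d.c j * x₀ j + s * ∑ j, d.c j * r j := by
          rw [Finset.mul_sum, ← Finset.sum_add_distrib]
          exact Finset.sum_congr rfl fun _ _ => by ring
        have h2 : s * ∑ j, d.c j * r j = |R| + |∑ j, d.c j * x₀ j| := by
          rw [hs]
          field_simp
        rw [h1, h2]
        have h3 := le_abs_self R
        have h4 := neg_abs_le (∑ j, d.c j * x₀ j)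
        linarith)
    refine ⟨l, hl0, fun j => ?_⟩
    have h1 := hl (Pi.single j 1)
    rw [hb] at h1
    simp only [ha] at h1
    have h2 : ∀ i, ∑ k, d.A i k * (Pi.single j 1 : Fin n → ℝ) k = d.A i j := by
      intro i
      simp [Pi.single_apply]
    have h3 : ∑ k, d.c k * (Pi.single j 1 : Fin n → ℝ) k = d.c j := by
      simp [Pi.single_apply]
    rw [h3] at h1
    simp only [h2] at h1
    have h4 : ∑ i, l i * -d.A i j = -∑ i, d.A i j * l i := by
      rw [← Finset.sum_neg_distrib]
      exact Finset.sum_congr rfl fun _ _ => by ring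
    rw [h4] at h1
    linarith

/-- A well-posed program with `m ≤ n` constraints is feasible. -/
lemma primal_of_le (hmn : m ≤ n) (d : LP (Fin m) (Fin n)) (hd : d.cond < ⊤) :
    d.PrimalFeasible := by
  obtain ⟨δ, hδ, h⟩ := primal_iff hd
  let M : Matrix (Fin m) (Fin m) ℝ := fun i j => d.A i (Fin.castLE hmn j)
  set S : ℝ := (⟨fun i j => if j = Fin.castLE hmn i then 1 else 0, fun _ => 0, fun _ => 0⟩ :
    LP (Fin m) (Fin n)).norm with hS
  have hS0 : 0 ≤ S := Real.sqrt_nonneg _
  have hfin : {t : ℝ | (-M).charpoly.IsRoot t}.Finite :=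
    Polynomial.finite_setOfPred_isRoot (Matrix.charpoly_monic _).ne_zero
  obtain ⟨t, ht, hroot⟩ : ∃ t ∈ Set.Ioo (0 : ℝ) (δ / (S + 1)), ¬ (-M).charpoly.IsRoot t := by
    by_contra hcon
    push Not at hcon
    exact (Set.Ioo_infinite (by positivity : (0 : ℝ) < δ / (S + 1))) (hfin.subset hcon)
  have hdet : (Matrix.scalar (Fin m) t + M).det ≠ 0 := by
    rw [Polynomial.IsRoot, Matrix.eval_charpoly, sub_neg_eq_add] at hroot
    exact hroot
  have hn : (⟨fun i j => if j = Fin.castLE hmn i then t else 0, fun _ => 0, fun _ => 0⟩ :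
      LP (Fin m) (Fin n)).norm = t * S := by
    have h1 : ∀ (i : Fin m) (j : Fin n), (if j = Fin.castLE hmn i then t else 0) ^ 2 =
        t ^ 2 * (if j = Fin.castLE hmn i then (1 : ℝ) else 0) ^ 2 := by
      intro i j
      split_ifs <;> simp
    have h2 : (∑ i : Fin m, ∑ j : Fin n, (if j = Fin.castLE hmn i then t else 0) ^ 2) +
        (∑ _i : Fin m, (0 : ℝ) ^ 2) + ∑ _j : Fin n, (0 : ℝ) ^ 2 =
        t ^ 2 * ((∑ i : Fin m, ∑ j : Fin n, (if j = Fin.castLE hmn i then (1 : ℝ) else 0) ^ 2) +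
        (∑ _i : Fin m, (0 : ℝ) ^ 2) + ∑ _j : Fin n, (0 : ℝ) ^ 2) := by
      simp only [h1, mul_add, Finset.mul_sum]
      simp
    rw [hS]
    unfold LP.norm
    rw [h2, Real.sqrt_mul (sq_nonneg t), Real.sqrt_sq ht.1.le]
  have hlt : (⟨fun i j => if j = Fin.castLE hmn i then t else 0, fun _ => 0, fun _ => 0⟩ :
      LP (Fin m) (Fin n)).norm < δ := by
    rw [hn]
    have h1 := ht.2
    rw [lt_div_iff₀ (by positivity)] at h1
    nlinarith [ht.1]
  rw [← h _ hlt]
  set B := Matrix.scalar (Fin m) t + M with hB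
  set w : Fin m → ℝ := B⁻¹.mulVec d.b with hw
  have hBw : B.mulVec w = d.b := by
    rw [hw, Matrix.mulVec_mulVec, Matrix.mul_nonsing_inv _ (isUnit_iff_ne_zero.2 hdet),
      Matrix.one_mulVec]
  refine ⟨fun j => ∑ i, if j = Fin.castLE hmn i then w i else 0, fun i => le_of_eq ?_⟩
  have h2 : ∀ (g : Fin n → ℝ), ∑ j, g j * (∑ k, if j = Fin.castLE hmn k then w k else 0) =
      ∑ k, g (Fin.castLE hmn k) * w k := by
    intro g
    simp only [Finset.mul_sum]
    rw [Finset.sum_comm]
    refine Finset.sum_congr rfl fun k _ => ?_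
    simp
  have h3 := congrFun hBw i
  simp only [add]
  rw [h2, add_zero, ← h3]
  refine Finset.sum_congr rfl fun k _ => ?_
  have h4 : B i k = (if i = k then t else 0) + d.A i (Fin.castLE hmn k) := by
    rw [hB, Matrix.add_apply, Matrix.scalar_apply, Matrix.diagonal_apply]
  have h5 : (Fin.castLE hmn k = Fin.castLE hmn i) ↔ i = k :=
    ⟨fun h => (Fin.castLE_injective hmn h).symm, fun h => by rw [h]⟩
  simp only [h4, h5]
  ring

theorem result (m n : ℕ) (hmn : m ≤ n) (d : LP (Fin m) (Fin n)) (hd : d.cond < ⊤) :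
    d.PrimalFeasible ∧
    (d.Unbounded ↔ ¬ (m = n ∧ (∀ x : Fin n → ℝ, (∀ i, ∑ j, d.A i j * x j = 0) → x = 0) ∧
      ∃ y : Fin m → ℝ, (∀ i, 0 ≤ y i) ∧ ∀ j, ∑ i, d.A i j * y i = d.c j)) ∧
    (¬ d.Unbounded → ∃ x : Fin n → ℝ,
      (∀ x' : Fin n → ℝ, (∀ i, ∑ j, d.A i j * x' j = d.b i) ↔ x' = x) ∧
        ∀ x' : Fin n → ℝ, d.IsOptimal x' ↔ x' = x) := by
  have hP := primal_of_le hmn d hd
  have hU := unbounded_iff d hP
  have hsurj : d.DualFeasible → m = n := by
    intro hD
    let T : (Fin m → ℝ) →ₗ[ℝ] (Fin n → ℝ) := (Matrix.of d.A).transpose.mulVecLin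
    have hT : Function.Surjective T := by
      intro f
      obtain ⟨y, hy⟩ := transpose_onto hd hD f
      refine ⟨y, ?_⟩
      funext j
      exact hy j
    have h1 := LinearMap.finrank_range_le T
    rw [LinearMap.range_eq_top.2 hT, finrank_top, Module.finrank_fin_fun,
      Module.finrank_fin_fun] at h1
    omega
  refine ⟨hP, ?_, fun hnU => ?_⟩
  · rw [hU]
    exact not_congr ⟨fun hD => ⟨hsurj hD, injective_of_dual hd hD, hD⟩, fun h => h.2.2⟩
  · have hD : d.DualFeasible := by
      by_contra h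
      exact hnU (hU.2 h)
    obtain rfl := hsurj hD
    have hinj := injective_of_dual hd hD
    -- `A` is onto
    let T : (Fin m → ℝ) →ₗ[ℝ] (Fin m → ℝ) := (Matrix.of d.A).mulVecLin
    have hTapp : ∀ x i, T x i = ∑ j, d.A i j * x j := fun x i => rfl
    have hTinj : Function.Injective T := by
      rw [injective_iff_map_eq_zero]
      intro x hx
      exact hinj x fun i => by rw [← hTapp, hx]; rfl
    have hTsurj : Function.Surjective T := LinearMap.injective_iff_surjective.1 hTinj
    -- `Aᵀ` is injective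
    let T' : (Fin m → ℝ) →ₗ[ℝ] (Fin m → ℝ) := (Matrix.of d.A).transpose.mulVecLin
    have hTapp' : ∀ y j, T' y j = ∑ i, d.A i j * y i := fun y j => rfl
    have hTsurj' : Function.Surjective T' := by
      intro f
      obtain ⟨y, hy⟩ := transpose_onto hd hD f
      refine ⟨y, ?_⟩
      funext j
      exact hy j
    have hTinj' : Function.Injective T' := LinearMap.injective_iff_surjective.2 hTsurj'
    obtain ⟨x, hx⟩ := hTsurj d.b
    obtain ⟨y, hy0, hy⟩ := id hD
    have hypos : ∀ i, 0 < y i := by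
      intro i
      obtain ⟨t, ht, y', hy'0, hy'⟩ := dual_dir hd hD (fun j => -d.A i j)
      have h1 : T' (fun k => y' k + t * (if k = i then 1 else 0)) = T' y := by
        funext j
        rw [hTapp', hTapp', hy]
        have h2 : ∑ k, d.A k j * (y' k + t * (if k = i then 1 else 0)) =
            ∑ k, d.A k j * y' k + t * d.A i j := by
          simp only [mul_add, Finset.sum_add_distrib]
          congr 1
          rw [Finset.sum_eq_single i]
          · simp
            ring
          · intro k _ hk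
            simp [hk]
          · simp
        rw [h2, hy']
        ring
      have h3 := congrFun (hTinj' h1) i
      simp only [if_true, mul_one] at h3
      have := hy'0 i
      linarith
    have hxb : ∀ i, ∑ j, d.A i j * x j = d.b i := fun i => by rw [← hTapp, hx]
    have huniq : ∀ x' : Fin m → ℝ, (∀ i, ∑ j, d.A i j * x' j = d.b i) → x' = x := by
      intro x' hx'
      apply hTinj
      rw [hx]
      funext i
      exact hx' i
    refine ⟨x, fun x' => ⟨huniq x', fun h => by rw [h]; exact hxb⟩, fun x' => ⟨fun h => ?_, ?_⟩⟩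
    · apply huniq
      have h1 := h.2 x fun i => (hxb i).le
      rw [weak hy x, weak hy x'] at h1
      have h2 : ∑ i, y i * (d.b i - ∑ j, d.A i j * x' j) ≤ 0 := by
        have h3 : ∑ i, y i * ∑ j, d.A i j * x j = ∑ i, y i * d.b i :=
          Finset.sum_congr rfl fun i _ => by rw [hxb]
        rw [h3] at h1
        simp only [mul_sub, Finset.sum_sub_distrib]
        linarith
      have h4 : ∀ i ∈ univ, 0 ≤ y i * (d.b i - ∑ j, d.A i j * x' j) := fun i _ =>
        mul_nonneg (hy0 i) (by linarith [h.1 i])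
      have h5 := (Finset.sum_eq_zero_iff_of_nonneg h4).1 (le_antisymm h2 (Finset.sum_nonneg h4))
      intro i
      have h6 := h5 i (mem_univ i)
      rcases mul_eq_zero.1 h6 with h7 | h7
      · exact absurd h7 (hypos i).ne'
      · linarith
    · rintro rfl
      refine ⟨fun i => (hxb i).le, fun z hz => ?_⟩
      rw [weak hy z, weak hy x']
      refine Finset.sum_le_sum fun i _ => mul_le_mul_of_nonneg_left ?_ (hy0 i)
      rw [hxb i]
      exact hz i

end Pool.Agent.Results.MP_5f1c40_lc.FewConstraints
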