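import Mathlib

/-!
# Exact solvers for well-posed linear programs decide arbitrary systems of inequalities

Renegar's condition number `C(d)` of a linear program `d` does not see how hard the exact
optimum is to find. Suppose `S` finds exact optimal solutions of the linear programs `d` with at
most `m + 2 n + 5` constraints and `n + 2` variables whose condition number `C(d)` is at most
`40 (n + 2) (m + n + 3)`. We show that a procedure with `(m + 1) (m + 2) + 1` calls of `S` decides
the solvability of an arbitrary real system `A x ≤ b` with `m` rows and `n` variables, and finds a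
solution if there is one.
-/

namespace Pool.Agent.Results.MP_5f1c40_lc.WellPosed

open Finset

/-- Data of the linear program: maximise `c x` subject to `A x ≤ b`; rows indexed by `ι`,
variables indexed by `κ`. -/
structure LP (ι κ : Type) where
  A : ι → κ → ℝ
  b : ι → ℝ
  c : κ → ℝ

namespace LP

variable {ι κ : Type} [Fintype ι] [Fintype κ]

/-- Frobenius norm of the block matrix with blocks `A`, `b`, `c`, `0`. -/
noncomputable def norm (d : LP ι κ) : ℝ :=
  Real.sqrt ((∑ i, ∑ j, d.A i j ^ 2) + (∑ i, d.b i ^ 2) + ∑ j, d.c j ^ 2)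

/-- The perturbed data `d + e`. -/
def add (d e : LP ι κ) : LP ι κ where
  A := fun i j => d.A i j + e.A i j
  b := fun i => d.b i + e.b i
  c := fun j => d.c j + e.c j

/-- `x` satisfies the constraints `A x ≤ b`. -/
def Feasible (d : LP ι κ) (x : κ → ℝ) : Prop := ∀ i, ∑ j, d.A i j * x j ≤ d.b i

/-- The primal program has a feasible point. -/
def PrimalFeasible (d : LP ι κ) : Prop := ∃ x, d.Feasible x

/-- The dual program has a feasible point `y ≥ 0` with `Aᵀ y = c`. -/
def DualFeasible (d : LP ι κ) : Prop :=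
  ∃ y : ι → ℝ, (∀ i, 0 ≤ y i) ∧ ∀ j, ∑ i, d.A i j * y i = d.c j

/-- Distance to a change of the primal feasibility status. -/
noncomputable def rhoP (d : LP ι κ) : ENNReal :=
  ⨅ e : LP ι κ, ⨅ _ : ¬ ((d.add e).PrimalFeasible ↔ d.PrimalFeasible), ENNReal.ofReal e.norm

/-- Distance to a change of the dual feasibility status. -/
noncomputable def rhoD (d : LP ι κ) : ENNReal :=
  ⨅ e : LP ι κ, ⨅ _ : ¬ ((d.add e).DualFeasible ↔ d.DualFeasible), ENNReal.ofReal e.norm

/-- Renegar's condition number; it is infinite if the distance to ill-posedness is zero. -/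
noncomputable def cond (d : LP ι κ) : ENNReal := by
  classical
  exact if min d.rhoP d.rhoD = 0 then ⊤ else ENNReal.ofReal d.norm / min d.rhoP d.rhoD

/-- `x` is an optimal solution. -/
def IsOptimal (d : LP ι κ) (x : κ → ℝ) : Prop :=
  d.Feasible x ∧ ∀ x', d.Feasible x' → ∑ j, d.c j * x' j ≤ ∑ j, d.c j * x j

/-- Bounds for the variables in `box`: `1` for the old ones, `3` for the new one. -/
def ub (l : Option κ) : ℝ := l.elim 3 (fun _ => 1)

variable [DecidableEq κ]

/-- The linear program: minimise `t` subject to `H z - t ≤ g`, `|z_k| ≤ 1`, `|t| ≤ 3`. The variable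
`t` has index `none`. -/
def box (H : ι → κ → ℝ) (g : ι → ℝ) : LP (ι ⊕ (Option κ ⊕ Option κ)) (Option κ) where
  A := Sum.elim (fun i k => k.elim (-1) (H i))
    (Sum.elim (fun l k => if l = k then 1 else 0) (fun l k => if l = k then -1 else 0))
  b := Sum.elim g (Sum.elim ub ub)
  c := fun k => k.elim (-1) (fun _ => 0)

/-! ### Entries and norm -/

omit [DecidableEq κ] in
lemma abs_A_le (e : LP ι κ) (i : ι) (j : κ) : |e.A i j| ≤ e.norm := by
  refine Real.abs_le_sqrt ?_
  have h1 : e.A i j ^ 2 ≤ ∑ j, e.A i j ^ 2 :=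
    Finset.single_le_sum (f := fun j => e.A i j ^ 2) (fun _ _ => sq_nonneg _) (mem_univ j)
  have h2 : ∑ j, e.A i j ^ 2 ≤ ∑ i, ∑ j, e.A i j ^ 2 :=
    Finset.single_le_sum (f := fun i => ∑ j, e.A i j ^ 2)
      (fun _ _ => Finset.sum_nonneg fun _ _ => sq_nonneg _) (mem_univ i)
  have h3 : 0 ≤ ∑ i, e.b i ^ 2 := Finset.sum_nonneg fun _ _ => sq_nonneg _
  have h4 : 0 ≤ ∑ j, e.c j ^ 2 := Finset.sum_nonneg fun _ _ => sq_nonneg _
  linarith

omit [DecidableEq κ] in
lemma abs_b_le (e : LP ι κ) (i : ι) : |e.b i| ≤ e.norm := by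
  refine Real.abs_le_sqrt ?_
  have h1 : e.b i ^ 2 ≤ ∑ i, e.b i ^ 2 :=
    Finset.single_le_sum (f := fun i => e.b i ^ 2) (fun _ _ => sq_nonneg _) (mem_univ i)
  have h3 : 0 ≤ ∑ i, ∑ j, e.A i j ^ 2 :=
    Finset.sum_nonneg fun _ _ => Finset.sum_nonneg fun _ _ => sq_nonneg _
  have h4 : 0 ≤ ∑ j, e.c j ^ 2 := Finset.sum_nonneg fun _ _ => sq_nonneg _
  linarith

omit [DecidableEq κ] in
lemma abs_c_le (e : LP ι κ) (j : κ) : |e.c j| ≤ e.norm := by
  refine Real.abs_le_sqrt ?_
  have h1 : e.c j ^ 2 ≤ ∑ j, e.c j ^ 2 :=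
    Finset.single_le_sum (f := fun j => e.c j ^ 2) (fun _ _ => sq_nonneg _) (mem_univ j)
  have h3 : 0 ≤ ∑ i, ∑ j, e.A i j ^ 2 :=
    Finset.sum_nonneg fun _ _ => Finset.sum_nonneg fun _ _ => sq_nonneg _
  have h4 : 0 ≤ ∑ i, e.b i ^ 2 := Finset.sum_nonneg fun _ _ => sq_nonneg _
  linarith

/-! ### Robust primal feasibility -/

lemma primal_robust {H : ι → κ → ℝ} {g : ι → ℝ} (hg : ∀ i, |g i| ≤ 1)
    (e : LP (ι ⊕ (Option κ ⊕ Option κ)) (Option κ)) (he : e.norm ≤ 1 / 8) :
    ((box H g).add e).PrimalFeasible := by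
  have eA : ∀ i j, |e.A i j| ≤ 1 / 8 := fun i j => (e.abs_A_le i j).trans he
  have eb : ∀ i, |e.b i| ≤ 1 / 8 := fun i => (e.abs_b_le i).trans he
  refine ⟨fun k => k.elim 2 (fun _ => 0), ?_⟩
  rintro (i | l | l)
  · have h1 := abs_le.1 (eA (Sum.inl i) none)
    have h2 := abs_le.1 (eb (Sum.inl i))
    have h3 := abs_le.1 (hg i)
    simp only [add, box, Fintype.sum_option, Sum.elim_inl, Option.elim_none, Option.elim_some,
      mul_zero, Finset.sum_const_zero, add_zero]
    linarith [h1.2, h2.1, h3.1]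
  · have h1 := abs_le.1 (eA (Sum.inr (Sum.inl l)) none)
    have h2 := abs_le.1 (eb (Sum.inr (Sum.inl l)))
    rcases l with _ | l
    · simp [add, box, Fintype.sum_option, ub]
      linarith [h1.2, h2.1]
    · simp [add, box, Fintype.sum_option, ub]
      linarith [h1.2, h2.1]
  · have h1 := abs_le.1 (eA (Sum.inr (Sum.inr l)) none)
    have h2 := abs_le.1 (eb (Sum.inr (Sum.inr l)))
    rcases l with _ | l
    · simp [add, box, Fintype.sum_option, ub]
      linarith [h1.2, h2.1]
    · simp [add, box, Fintype.sum_option, ub]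
      linarith [h1.2, h2.1]

/-! ### Robust dual feasibility -/

/-- A small perturbation `E` of the identity can be solved with a solution close to the right-hand
side. -/
lemma solve {α : Type} [Fintype α] [DecidableEq α] [Nonempty α] (E : α → α → ℝ) (ε : ℝ)
    (hE : ∀ i j, |E i j| ≤ ε) (hε : Fintype.card α * ε ≤ 1 / 8) (r : α → ℝ)
    (hr1 : ∀ j, 2 ≤ r j) (hr2 : ∀ j, r j ≤ 6) :
    ∃ y : α → ℝ, (∀ j, 0 ≤ y j) ∧ ∀ j, ∑ l, ((if l = j then 1 else 0) + E l j) * y l = r j := by
  classical
  have hcard : (1 : ℝ) ≤ Fintype.card α := by exact_mod_cast Fintype.card_pos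
  have hε0 : 0 ≤ ε := (abs_nonneg _).trans (hE (Classical.arbitrary α) (Classical.arbitrary α))
  have hε1 : ε ≤ 1 / 8 := by nlinarith
  let B : Matrix α α ℝ := fun j l => (if l = j then 1 else 0) + E l j
  have hdet : B.det ≠ 0 := by
    apply det_ne_zero_of_sum_row_lt_diag
    intro k
    have h1 : ∑ j ∈ univ.erase k, ‖B k j‖ ≤ ∑ j ∈ univ.erase k, ε := by
      refine Finset.sum_le_sum fun j hj => ?_
      have : j ≠ k := Finset.ne_of_mem_erase hj
      simpa [B, this] using hE j k
    have h2 : ∑ j ∈ univ.erase k, ε = (Fintype.card α - 1) * ε := by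
      rw [Finset.sum_const, Finset.card_erase_of_mem (mem_univ k), Finset.card_univ, nsmul_eq_mul,
        Nat.cast_sub Fintype.card_pos, Nat.cast_one]
    have h3 : 1 - ε ≤ ‖B k k‖ := by
      have := abs_le.1 (hE k k)
      have h4 : B k k = 1 + E k k := by simp [B]
      rw [h4, Real.norm_eq_abs]
      exact (by linarith [this.1] : 1 - ε ≤ 1 + E k k).trans (le_abs_self _)
    nlinarith
  set y : α → ℝ := B⁻¹.mulVec r with hy
  have hBy : B.mulVec y = r := by
    rw [hy, Matrix.mulVec_mulVec, Matrix.mul_nonsing_inv _ (isUnit_iff_ne_zero.2 hdet),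
      Matrix.one_mulVec]
  have heq : ∀ j, ∑ l, ((if l = j then 1 else 0) + E l j) * y l = r j := fun j => congrFun hBy j
  have heq2 : ∀ j, y j = r j - ∑ l, E l j * y l := by
    intro j
    rw [← heq j]
    simp [add_mul, Finset.sum_add_distrib]
  obtain ⟨k, -, hk⟩ := Finset.exists_max_image univ (fun l => |y l|) univ_nonempty
  set S := |y k| with hS
  have hyS : ∀ l, |y l| ≤ S := fun l => hk l (mem_univ l)
  have hsum : ∀ j, |∑ l, E l j * y l| ≤ S / 8 := by
    intro j
    calc |∑ l, E l j * y l| ≤ ∑ l, |E l j * y l| := Finset.abs_sum_le_sum_abs _ _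
      _ ≤ ∑ _l : α, ε * S := by
          refine Finset.sum_le_sum fun l _ => ?_
          rw [abs_mul]
          exact mul_le_mul (hE l j) (hyS l) (abs_nonneg _) hε0
      _ = Fintype.card α * ε * S := by
          rw [Finset.sum_const, Finset.card_univ, nsmul_eq_mul]; ring
      _ ≤ 1 / 8 * S := mul_le_mul_of_nonneg_right hε (abs_nonneg _)
      _ = S / 8 := by ring
  have hSle : S ≤ 7 := by
    have h1 := heq2 k
    have h2 := abs_le.1 (hsum k)
    have h3 := hr1 k
    have h4 := hr2 k
    have h5 : S ≤ 6 + S / 8 := by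
      rw [hS]
      refine abs_le.2 ⟨?_, ?_⟩
      · linarith [h2.2]
      · linarith [h2.1]
    linarith
  refine ⟨y, fun j => ?_, heq⟩
  have h1 := heq2 j
  have h2 := abs_le.1 (hsum j)
  have h3 := hr1 j
  linarith [h2.2]

lemma dual_robust {H : ι → κ → ℝ} {g : ι → ℝ}
    (e : LP (ι ⊕ (Option κ ⊕ Option κ)) (Option κ))
    (he : (Fintype.card κ + 1 : ℕ) * e.norm ≤ 1 / 8) :
    ((box H g).add e).DualFeasible := by
  have hn0 : 0 ≤ e.norm := Real.sqrt_nonneg _
  have hcard : (Fintype.card (Option κ) : ℝ) = (Fintype.card κ + 1 : ℕ) := by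
    rw [Fintype.card_option]
  have hc1 : (1 : ℝ) ≤ (Fintype.card κ + 1 : ℕ) := by exact_mod_cast Nat.succ_pos _
  have he1 : e.norm ≤ 1 / 8 := by nlinarith
  set r : Option κ → ℝ := fun j =>
    (box H g).c j + e.c j + 4 - 4 * ∑ l, e.A (Sum.inr (Sum.inr l)) j with hr
  have hsum : ∀ j, |∑ l, e.A (Sum.inr (Sum.inr l)) j| ≤ 1 / 8 := by
    intro j
    calc |∑ l, e.A (Sum.inr (Sum.inr l)) j| ≤ ∑ l, |e.A (Sum.inr (Sum.inr l)) j| :=
          Finset.abs_sum_le_sum_abs _ _
      _ ≤ ∑ _l : Option κ, e.norm := Finset.sum_le_sum fun l _ => e.abs_A_le _ _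
      _ = (Fintype.card κ + 1 : ℕ) * e.norm := by
          rw [Finset.sum_const, Finset.card_univ, nsmul_eq_mul, hcard]
      _ ≤ 1 / 8 := he
  have hc : ∀ j, -1 ≤ (box H g).c j ∧ (box H g).c j ≤ 0 := by
    rintro (_ | j) <;> simp [box]
  obtain ⟨y, hy0, hy⟩ := solve (fun l j => e.A (Sum.inr (Sum.inl l)) j) e.norm
    (fun l j => e.abs_A_le _ _) (by rw [hcard]; exact he) r
    (fun j => by
      have h1 := abs_le.1 (e.abs_c_le j)
      have h2 := abs_le.1 (hsum j)
      have h3 := hc j
      simp only [hr]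
      linarith [h1.1, h2.2, h3.1])
    (fun j => by
      have h1 := abs_le.1 (e.abs_c_le j)
      have h2 := abs_le.1 (hsum j)
      have h3 := hc j
      simp only [hr]
      linarith [h1.2, h2.1, h3.2])
  refine ⟨Sum.elim (fun _ => 0) (Sum.elim y (fun _ => 4)), ?_, ?_⟩
  · rintro (i | l | l)
    · simp
    · simpa using hy0 l
    · simp
  · intro j
    have h := hy j
    have h2 : ∑ l : Option κ, ((if l = j then (-1 : ℝ) else 0) + e.A (Sum.inr (Sum.inr l)) j) * 4
        = -4 + 4 * ∑ l, e.A (Sum.inr (Sum.inr l)) j := by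
      rw [← Finset.sum_mul, Finset.sum_add_distrib]
      simp
      ring
    simp only [add, Fintype.sum_sum_type, Sum.elim_inl, Sum.elim_inr, mul_zero,
      Finset.sum_const_zero, zero_add]
    simp only [box, Sum.elim_inl, Sum.elim_inr] at *
    rw [h, h2]
    simp only [hr]
    ring

/-! ### The condition number -/

omit [DecidableEq κ] [Fintype ι] [Fintype κ] in
lemma add_zero' (d : LP ι κ) : d.add ⟨fun _ _ => 0, fun _ => 0, fun _ => 0⟩ = d := by
  cases d
  simp [add]

omit [DecidableEq κ] in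
lemma norm_zero' : (⟨fun _ _ => 0, fun _ => 0, fun _ => 0⟩ : LP ι κ).norm = 0 := by
  simp [norm]

lemma norm_box {H : ι → κ → ℝ} {g : ι → ℝ} (hH : ∀ i k, |H i k| ≤ 1) (hg : ∀ i, |g i| ≤ 1) :
    (box H g).norm ≤ 5 * (Fintype.card ι + Fintype.card κ + 1) := by
  set m : ℝ := (Fintype.card ι : ℝ) with hm
  set n : ℝ := (Fintype.card κ : ℝ) with hn
  have hm0 : 0 ≤ m := Nat.cast_nonneg _
  have hn0 : 0 ≤ n := Nat.cast_nonneg _
  refine (Real.sqrt_le_left (by positivity)).2 ?_
  have h1 : ∑ i, ∑ k, H i k ^ 2 ≤ m * n := by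
    calc ∑ i, ∑ k, H i k ^ 2 ≤ ∑ _i : ι, ∑ _k : κ, (1 : ℝ) :=
          Finset.sum_le_sum fun i _ => Finset.sum_le_sum fun k _ => by
            have := hH i k
            rw [← sq_abs]
            nlinarith [abs_nonneg (H i k)]
      _ = m * n := by simp [hm, hn]
  have h2 : ∑ i, g i ^ 2 ≤ m := by
    calc ∑ i, g i ^ 2 ≤ ∑ _i : ι, (1 : ℝ) :=
          Finset.sum_le_sum fun i _ => by
            have := hg i
            rw [← sq_abs]
            nlinarith [abs_nonneg (g i)]
      _ = m := by simp [hm]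
  have h3 : (∑ i, ∑ j, (box H g).A i j ^ 2) = ∑ i, ∑ k, H i k ^ 2 + m + 2 * (n + 1) := by
    have hI : ∀ c : ℝ, c ^ 2 = 1 → ∑ l : Option κ, ∑ k : Option κ, (if l = k then c else 0) ^ 2
        = n + 1 := by
      intro c hc
      have : ∀ l : Option κ, ∑ k : Option κ, (if l = k then c else (0 : ℝ)) ^ 2 = 1 := by
        intro l
        rw [Finset.sum_eq_single l]
        · simpa using hc
        · intro k _ hk
          simp [Ne.symm hk]
        · simp
      rw [Finset.sum_congr rfl fun l _ => this l]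
      simp [hn]
    have h6 : ∑ i, ∑ j : Option κ, (box H g).A (Sum.inl i) j ^ 2 = ∑ i, ∑ k, H i k ^ 2 + m := by
      simp [box, Fintype.sum_option, Finset.sum_add_distrib, hm]
      ring
    rw [Fintype.sum_sum_type, Fintype.sum_sum_type, h6]
    have h7 := hI 1 (by norm_num)
    have h8 := hI (-1) (by norm_num)
    have h9 : ∑ l, ∑ j, (box H g).A (Sum.inr (Sum.inl l)) j ^ 2 = n + 1 := h7
    have h10 : ∑ l, ∑ j, (box H g).A (Sum.inr (Sum.inr l)) j ^ 2 = n + 1 := h8
    rw [h9, h10]
    ring
  have h4 : (∑ i, (box H g).b i ^ 2) = ∑ i, g i ^ 2 + 2 * (n + 9) := by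
    simp [box, Fintype.sum_sum_type, Fintype.sum_option, ub, hn]
    ring
  have h5 : (∑ j, (box H g).c j ^ 2) = 1 := by
    simp [box, Fintype.sum_option]
  rw [h3, h4, h5]
  nlinarith

theorem cond_box {H : ι → κ → ℝ} {g : ι → ℝ} (hH : ∀ i k, |H i k| ≤ 1) (hg : ∀ i, |g i| ≤ 1) :
    (box H g).cond ≤
      ((40 * (Fintype.card κ + 1) * (Fintype.card ι + Fintype.card κ + 1) : ℕ) : ENNReal) := by
  set N : ℝ := ((Fintype.card κ + 1 : ℕ) : ℝ) with hN
  have hN1 : 1 ≤ N := by rw [hN]; exact_mod_cast Nat.succ_pos _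
  have hN0 : 0 < N := by linarith
  have key : ∀ e : LP (ι ⊕ (Option κ ⊕ Option κ)) (Option κ), N * e.norm ≤ 1 / 8 →
      ((box H g).add e).PrimalFeasible ∧ ((box H g).add e).DualFeasible := by
    intro e he
    have h0 : 0 ≤ e.norm := Real.sqrt_nonneg _
    exact ⟨primal_robust hg e (by nlinarith), dual_robust e he⟩
  have base : (box H g).PrimalFeasible ∧ (box H g).DualFeasible := by
    have := key ⟨fun _ _ => 0, fun _ => 0, fun _ => 0⟩ (by rw [norm_zero']; norm_num)
    rwa [add_zero'] at this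
  have small : ∀ e : LP (ι ⊕ (Option κ ⊕ Option κ)) (Option κ), ¬ (N * e.norm ≤ 1 / 8) →
      ENNReal.ofReal (1 / (8 * N)) ≤ ENNReal.ofReal e.norm := by
    intro e he
    refine ENNReal.ofReal_le_ofReal ?_
    rw [div_le_iff₀ (by positivity)]
    nlinarith [not_le.1 he]
  have hrho : ENNReal.ofReal (1 / (8 * N)) ≤ min (box H g).rhoP (box H g).rhoD := by
    refine le_min ?_ ?_
    · refine le_iInf fun e => le_iInf fun h => small e fun he => h ?_
      exact ⟨fun _ => base.1, fun _ => (key e he).1⟩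
    · refine le_iInf fun e => le_iInf fun h => small e fun he => h ?_
      exact ⟨fun _ => base.2, fun _ => (key e he).2⟩
  have hne : min (box H g).rhoP (box H g).rhoD ≠ 0 :=
    ((ENNReal.ofReal_pos.2 (by positivity)).trans_le hrho).ne'
  calc (box H g).cond = ENNReal.ofReal (box H g).norm / min (box H g).rhoP (box H g).rhoD :=
        if_neg hne
    _ ≤ ENNReal.ofReal (box H g).norm / ENNReal.ofReal (1 / (8 * N)) :=
        ENNReal.div_le_div_left hrho _
    _ = ENNReal.ofReal ((box H g).norm / (1 / (8 * N))) :=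
        (ENNReal.ofReal_div_of_pos (by positivity)).symm
    _ ≤ ENNReal.ofReal
        ((40 * (Fintype.card κ + 1) * (Fintype.card ι + Fintype.card κ + 1) : ℕ) : ℝ) := by
        refine ENNReal.ofReal_le_ofReal ?_
        have := norm_box hH hg
        have h8 : (box H g).norm / (1 / (8 * N)) = (box H g).norm * (8 * N) := by
          field_simp
        rw [h8]
        push_cast at hN ⊢
        rw [← hN]
        nlinarith
    _ = _ := ENNReal.ofReal_natCast _

/-! ### Optimal solutions -/

omit [Fintype ι] in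
lemma feasible_box {H : ι → κ → ℝ} {g : ι → ℝ} {x : Option κ → ℝ} :
    (box H g).Feasible x ↔ (∀ i, ∑ k, H i k * x (some k) - x none ≤ g i) ∧
      ∀ l, |x l| ≤ ub l := by
  have e1 : ∀ i, ∑ j, (box H g).A (Sum.inl i) j * x j = ∑ k, H i k * x (some k) - x none := by
    intro i
    simp [box, Fintype.sum_option]
    ring
  have e2 : ∀ l, ∑ j, (box H g).A (Sum.inr (Sum.inl l)) j * x j = x l := by
    intro l
    simp [box]
  have e3 : ∀ l, ∑ j, (box H g).A (Sum.inr (Sum.inr l)) j * x j = - x l := by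
    intro l
    simp [box]
  constructor
  · intro h
    refine ⟨fun i => ?_, fun l => ?_⟩
    · have := h (Sum.inl i)
      rwa [e1] at this
    · have h1 := h (Sum.inr (Sum.inl l))
      have h2 := h (Sum.inr (Sum.inr l))
      rw [e2] at h1
      rw [e3] at h2
      simp only [box, Sum.elim_inr, Sum.elim_inl] at h1 h2
      exact abs_le.2 ⟨by linarith, h1⟩
  · rintro ⟨h1, h2⟩ (i | l | l)
    · rw [e1]
      exact h1 i
    · rw [e2]
      exact (abs_le.1 (h2 l)).2
    · rw [e3]
      have := (abs_le.1 (h2 l)).1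
      simp only [box, Sum.elim_inr]
      linarith

omit [Fintype ι] in
lemma obj_box {H : ι → κ → ℝ} {g : ι → ℝ} (x : Option κ → ℝ) :
    ∑ j, (box H g).c j * x j = - x none := by
  simp [box, Fintype.sum_option]

theorem exists_optimal {H : ι → κ → ℝ} {g : ι → ℝ} (hg : ∀ i, |g i| ≤ 1) :
    ∃ x, (box H g).IsOptimal x := by
  have hne : {x | (box H g).Feasible x}.Nonempty := by
    have := primal_robust (H := H) hg ⟨fun _ _ => 0, fun _ => 0, fun _ => 0⟩
      (by rw [norm_zero']; norm_num)
    rwa [add_zero'] at this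
  have hcl : IsClosed {x | (box H g).Feasible x} := by
    have : {x | (box H g).Feasible x} = ⋂ i, {x | ∑ j, (box H g).A i j * x j ≤ (box H g).b i} := by
      ext x
      simp [Feasible]
    rw [this]
    exact isClosed_iInter fun i => isClosed_le (by fun_prop) continuous_const
  have hcpt : IsCompact {x | (box H g).Feasible x} := by
    refine (isCompact_univ_pi fun l => isCompact_Icc (a := -ub l) (b := ub l)).of_isClosed_subset
      hcl fun x hx => ?_
    exact fun l _ => abs_le.1 ((feasible_box.1 hx).2 l)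
  obtain ⟨x, hx, hmax⟩ := hcpt.exists_isMaxOn hne
    (f := fun x => ∑ j, (box H g).c j * x j) (by fun_prop)
  exact ⟨x, hx, fun x' hx' => hmax hx'⟩

/-- Every optimal solution of `box H g` decides the system `H z < g` in the cube. -/
theorem optimal_lt_iff {H : ι → κ → ℝ} {g : ι → ℝ} {x : Option κ → ℝ}
    (hx : (box H g).IsOptimal x) :
    x none < 0 ↔ ∃ z : κ → ℝ, (∀ k, |z k| ≤ 1) ∧ ∀ i, ∑ k, H i k * z k < g i := by
  obtain ⟨h1, h2⟩ := feasible_box.1 hx.1
  constructor
  · intro h
    exact ⟨fun k => x (some k), fun k => h2 (some k), fun i => by linarith [h1 i]⟩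
  · rintro ⟨z, hz, hH⟩
    obtain ⟨δ, hδ0, hδ3, hδ⟩ : ∃ δ : ℝ, 0 < δ ∧ δ ≤ 3 ∧ ∀ i, ∑ k, H i k * z k + δ ≤ g i := by
      rcases isEmpty_or_nonempty ι with he | hne
      · exact ⟨1, one_pos, by norm_num, fun i => (he.false i).elim⟩
      · obtain ⟨i₀, -, hi₀⟩ := Finset.exists_min_image univ
          (fun i => g i - ∑ k, H i k * z k) univ_nonempty
        refine ⟨min (g i₀ - ∑ k, H i₀ k * z k) 3, lt_min (by linarith [hH i₀]) (by norm_num),
          min_le_right _ _, fun i => ?_⟩
        have := hi₀ i (mem_univ i)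
        have h3 := min_le_left (g i₀ - ∑ k, H i₀ k * z k) 3
        linarith
    have := hx.2 (fun l => l.elim (-δ) z) (feasible_box.2 ⟨fun i => by
      have := hδ i
      simpa using this, by
      rintro (_ | k)
      · simp only [Option.elim_none, ub]
        rw [abs_neg, abs_of_pos hδ0]
        exact hδ3
      · simpa [ub] using hz k⟩)
    rw [obj_box, obj_box] at this
    simp only [Option.elim_none] at this
    linarith

end LP

open LP

variable {m n : ℕ}

/-! ### Arbitrary systems of inequalities -/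

section Reduction

variable {ι κ μ : Type} [Fintype κ] [Fintype μ]

/-- The value `(H z)_i`. -/
def val (H : ι → κ → ℝ) (z : κ → ℝ) (i : ι) : ℝ := ∑ k, H i k * z k

/-- There is `z` with `(H z)_i = 0` for `i ∈ I` and `(H z)_i < 0` for `i ∈ K`. -/
def StrictOn (H : ι → κ → ℝ) (I K : Finset ι) : Prop :=
  ∃ z, (∀ i ∈ I, val H z i = 0) ∧ ∀ i ∈ K, val H z i < 0

/-- `P` parametrises the solutions of `(H z)_i = 0`, `i ∈ I`. -/
def Param (H : ι → κ → ℝ) (I : Finset ι) (P : κ → μ → ℝ) : Prop :=
  ∀ z : κ → ℝ, (∀ i ∈ I, val H z i = 0) ↔ ∃ w : μ → ℝ, z = val P w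

/-- The product `H P`. -/
def prod (H : ι → κ → ℝ) (P : κ → μ → ℝ) (i : ι) (l : μ) : ℝ := ∑ k, H i k * P k l

/-- The factor by which row `i` of `H P` is divided. -/
noncomputable def wt (H : ι → κ → ℝ) (P : κ → μ → ℝ) (i : ι) : ℝ := 1 + ∑ l, |prod H P i l|

/-- The program: minimise `t` subject to `(H P w)_i / wt_i ≤ t` for `i ∈ K`, `|w_l| ≤ 1`,
`|t| ≤ 3`. -/
noncomputable def query [DecidableEq μ] (H : ι → κ → ℝ) (K : Finset ι) (P : κ → μ → ℝ) :
    LP (K ⊕ (Option μ ⊕ Option μ)) (Option μ) :=
  box (fun i l => prod H P i l / wt H P i) (fun _ => 0)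

lemma wt_pos (H : ι → κ → ℝ) (P : κ → μ → ℝ) (i : ι) : 0 < wt H P i := by
  have h1 : 0 ≤ ∑ l, |prod H P i l| := Finset.sum_nonneg fun _ _ => abs_nonneg _
  unfold wt
  linarith

lemma val_val (H : ι → κ → ℝ) (P : κ → μ → ℝ) (w : μ → ℝ) (i : ι) :
    val H (val P w) i = ∑ l, prod H P i l * w l := by
  simp only [val, prod, Finset.mul_sum, Finset.sum_mul]
  rw [Finset.sum_comm]
  exact Finset.sum_congr rfl fun _ _ => Finset.sum_congr rfl fun _ _ => by ring

lemma val_query (H : ι → κ → ℝ) (P : κ → μ → ℝ) (w : μ → ℝ) (i : ι) :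
    ∑ l, prod H P i l / wt H P i * w l = val H (val P w) i / wt H P i := by
  rw [val_val, Finset.sum_div]
  exact Finset.sum_congr rfl fun _ _ => by ring

lemma val_smul (H : ι → κ → ℝ) (z : κ → ℝ) (c : ℝ) (i : ι) :
    val H (fun k => c * z k) i = c * val H z i := by
  simp only [val, Finset.mul_sum]
  exact Finset.sum_congr rfl fun _ _ => by ring

lemma val_add_smul (H : ι → κ → ℝ) (z u : κ → ℝ) (c : ℝ) (i : ι) :
    val H (fun k => z k + c * u k) i = val H z i + c * val H u i := by
  simp only [val, Finset.mul_sum, ← Finset.sum_add_distrib]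
  exact Finset.sum_congr rfl fun _ _ => by ring

theorem query_spec [DecidableEq μ] (H : ι → κ → ℝ) (I K : Finset ι) (P : κ → μ → ℝ)
    (hP : Param H I P) :
    (query H K P).cond ≤
      ((40 * (Fintype.card μ + 1) * (K.card + Fintype.card μ + 1) : ℕ) : ENNReal) ∧
    (∃ x, (query H K P).IsOptimal x) ∧
    ∀ x, (query H K P).IsOptimal x →
      (StrictOn H I K ↔ x none < 0) ∧
      (x none < 0 → (∀ i ∈ I, val H (val P fun l => x (some l)) i = 0) ∧
        ∀ i ∈ K, val H (val P fun l => x (some l)) i < 0) := by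
  have hle : ∀ (i : K) (l : μ), |prod H P i l / wt H P i| ≤ 1 := by
    intro i l
    rw [abs_div, abs_of_pos (wt_pos H P i), div_le_one (wt_pos H P i)]
    have h3 : |prod H P i l| ≤ ∑ l, |prod H P i l| :=
      Finset.single_le_sum (f := fun l => |prod H P i l|) (fun _ _ => abs_nonneg _) (mem_univ l)
    unfold wt
    linarith
  refine ⟨?_, exists_optimal (by simp), fun x hx => ?_⟩
  · refine (cond_box hle (by simp)).trans (le_of_eq ?_)
    rw [Fintype.card_coe]
  · have h2 : x none < 0 → (∀ i ∈ I, val H (val P fun l => x (some l)) i = 0) ∧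
        ∀ i ∈ K, val H (val P fun l => x (some l)) i < 0 := by
      intro ht
      refine ⟨(hP _).2 ⟨_, rfl⟩, fun i hi => ?_⟩
      have h1 := (feasible_box.1 hx.1).1 ⟨i, hi⟩
      simp only at h1
      rw [val_query] at h1
      have h3 : val H (val P fun l => x (some l)) i / wt H P i < 0 := by linarith
      rwa [div_lt_iff₀ (wt_pos H P i), zero_mul] at h3
    refine ⟨⟨fun ⟨z, hz1, hz2⟩ => ?_, fun h => ⟨_, h2 h⟩⟩, h2⟩
    obtain ⟨w, rfl⟩ := (hP z).1 hz1
    set r : ℝ := 1 + ∑ l, |w l| with hr
    have hr1 : 0 ≤ ∑ l, |w l| := Finset.sum_nonneg fun _ _ => abs_nonneg _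
    have hr0 : 0 < r := by linarith
    refine (optimal_lt_iff hx).2 ⟨fun l => r⁻¹ * w l, fun l => ?_, fun i => ?_⟩
    · rw [abs_mul, abs_of_pos (inv_pos.2 hr0), inv_mul_le_iff₀ hr0, mul_one]
      have h3 : |w l| ≤ ∑ l, |w l| :=
        Finset.single_le_sum (f := fun l => |w l|) (fun _ _ => abs_nonneg _) (mem_univ l)
      linarith
    · simp only
      rw [val_query, div_lt_iff₀ (wt_pos H P i), zero_mul]
      have h4 : val P (fun l => r⁻¹ * w l) = fun k => r⁻¹ * val P w k := by
        funext k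
        exact val_smul P w _ k
      rw [h4, val_smul]
      exact mul_neg_of_pos_of_neg (inv_pos.2 hr0) (hz2 i i.2)

theorem exists_param [DecidableEq κ] (H : ι → κ → ℝ) (I : Finset ι) :
    ∃ P : κ → κ → ℝ, Param H I P := by
  let W : Submodule ℝ (κ → ℝ) :=
    { carrier := {z | ∀ i ∈ I, val H z i = 0}
      add_mem' := by
        intro a b ha hb i hi
        have := val_add_smul H a b 1 i
        simp only [one_mul] at this
        have h2 : (a + b) = fun k => a k + b k := rfl
        rw [h2, this, ha i hi, hb i hi, add_zero]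
      zero_mem' := by
        intro i _
        simp [val]
      smul_mem' := by
        intro c a ha i hi
        have h2 : (c • a) = fun k => c * a k := rfl
        rw [h2, val_smul, ha i hi, mul_zero] }
  obtain ⟨f, hf⟩ := LinearMap.exists_leftInverse_of_injective W.subtype (by simp)
  have hval : ∀ w, val (LinearMap.toMatrix' (W.subtype ∘ₗ f)) w = (f w : κ → ℝ) := by
    intro w
    have : val (LinearMap.toMatrix' (W.subtype ∘ₗ f)) w =
        (LinearMap.toMatrix' (W.subtype ∘ₗ f)).mulVec w := rfl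
    rw [this, LinearMap.toMatrix'_mulVec]
    rfl
  refine ⟨LinearMap.toMatrix' (W.subtype ∘ₗ f), fun z => ⟨fun hz => ⟨z, ?_⟩, ?_⟩⟩
  · rw [hval]
    have := LinearMap.congr_fun hf ⟨z, hz⟩
    simp only [LinearMap.comp_apply, Submodule.subtype_apply, LinearMap.id_apply] at this
    rw [this]
  · rintro ⟨w, rfl⟩
    rw [hval]
    exact (f w).2

/-- Rows of a minimal unsolvable set vanish on all solutions of `H z ≤ 0`. -/
theorem eliminate [DecidableEq ι] (H : ι → κ → ℝ) (I K : Finset ι) (h1 : ¬ StrictOn H I K)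
    (h2 : ∀ k ∈ K, StrictOn H I (K.erase k)) (z : κ → ℝ) (hI : ∀ i ∈ I, val H z i = 0)
    (hK : ∀ i ∈ K, val H z i ≤ 0) : ∀ i ∈ K, val H z i = 0 := by
  by_contra hne
  simp only [not_forall] at hne
  obtain ⟨k, hk, hzk⟩ := hne
  have hlt : val H z k < 0 := lt_of_le_of_ne (hK k hk) hzk
  obtain ⟨u, hu1, hu2⟩ := h2 k hk
  have hd : 0 < 1 + |val H u k| := by positivity
  set ε : ℝ := - val H z k / (1 + |val H u k|) with hε
  have hε0 : 0 < ε := div_pos (by linarith) hd
  refine h1 ⟨fun j => z j + ε * u j, fun i hi => ?_, fun i hi => ?_⟩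
  · rw [val_add_smul, hI i hi, hu1 i hi]
    ring
  · rw [val_add_smul]
    by_cases hik : i = k
    · subst hik
      have h5 : ε * (1 + |val H u i|) = - val H z i := by
        rw [hε]
        field_simp
      have h6 : ε * val H u i ≤ ε * |val H u i| :=
        mul_le_mul_of_nonneg_left (le_abs_self _) hε0.le
      nlinarith
    · have h7 := hu2 i (Finset.mem_erase.2 ⟨hik, hi⟩)
      have h8 := hK i hi
      nlinarith

/-- Delete from `K`, one after the other, the rows of the list whose deletion leaves the predicate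
`dec` false. -/
noncomputable def shrink [DecidableEq ι] (dec : Finset ι → Prop) : List ι → Finset ι → Finset ι
  | [], K => K
  | r :: l, K => by
      classical
      exact shrink dec l (if dec (K.erase r) then K else K.erase r)

lemma shrink_spec [DecidableEq ι] (dec : Finset ι → Prop)
    (hdec : ∀ K K', K' ⊆ K → dec K → dec K') (l : List ι) (K : Finset ι) (hK : ¬ dec K) :
    ¬ dec (shrink dec l K) ∧ shrink dec l K ⊆ K ∧
      ∀ r ∈ l, r ∈ shrink dec l K → dec ((shrink dec l K).erase r) := by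
  classical
  induction l generalizing K with
  | nil => exact ⟨hK, subset_rfl, by simp⟩
  | cons r l ih =>
    have hS : shrink dec (r :: l) K = shrink dec l (if dec (K.erase r) then K else K.erase r) := by
      rw [shrink]
    rw [hS]
    by_cases h : dec (K.erase r)
    · rw [if_pos h]
      obtain ⟨h1, h2, h3⟩ := ih K hK
      refine ⟨h1, h2, fun t ht htS => ?_⟩
      rcases List.mem_cons.1 ht with rfl | ht
      · exact hdec _ _ (Finset.erase_subset_erase _ h2) h
      · exact h3 t ht htS
    · rw [if_neg h]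
      obtain ⟨h1, h2, h3⟩ := ih _ h
      refine ⟨h1, h2.trans (Finset.erase_subset _ _), fun t ht htS => ?_⟩
      rcases List.mem_cons.1 ht with rfl | ht
      · exact absurd (h2 htS) (Finset.notMem_erase _ _)
      · exact h3 t ht htS

/-- One round of the procedure: if `dec I Iᶜ` holds, nothing changes; otherwise a set of rows, from
`Iᶜ` by deleting rows as long as the system stays unsolvable, is added to `I`. -/
noncomputable def round [DecidableEq ι] [Fintype ι] (dec : Finset ι → Finset ι → Prop)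
    (I : Finset ι) : Finset ι := by
  classical
  exact if dec I Iᶜ then I else I ∪ shrink (dec I) Finset.univ.toList Iᶜ

lemma strictOn_mono {H : ι → κ → ℝ} {I K K' : Finset ι} (h : K' ⊆ K) (hK : StrictOn H I K) :
    StrictOn H I K' := by
  obtain ⟨z, h1, h2⟩ := hK
  exact ⟨z, h1, fun i hi => h2 i (h hi)⟩

lemma strictOn_empty (H : ι → κ → ℝ) (I : Finset ι) : StrictOn H I ∅ :=
  ⟨fun _ => 0, by simp [val], by simp⟩

/-- All rows that enter `I` vanish on all solutions of `H z ≤ 0`. -/
theorem round_sound [DecidableEq ι] [Fintype ι] {H : ι → κ → ℝ} (I : Finset ι)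
    (z : κ → ℝ) (hz : ∀ i, val H z i ≤ 0) (hI : ∀ i ∈ I, val H z i = 0) :
    ∀ i ∈ round (StrictOn H) I, val H z i = 0 := by
  classical
  by_cases h : StrictOn H I Iᶜ
  · have : round (StrictOn H) I = I := by
      unfold round
      exact if_pos h
    rwa [this]
  · have : round (StrictOn H) I = I ∪ shrink (StrictOn H I) Finset.univ.toList Iᶜ := by
      unfold round
      exact if_neg h
    rw [this]
    obtain ⟨h1, h2, h3⟩ := shrink_spec (StrictOn H I) (fun K K' => strictOn_mono)
      Finset.univ.toList Iᶜ h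
    intro i hi
    rcases Finset.mem_union.1 hi with hi | hi
    · exact hI i hi
    · exact eliminate H I _ h1 (fun k hk => h3 k (by simp) hk) z hI (fun i _ => hz i) i hi

theorem iterate_sound [DecidableEq ι] [Fintype ι] {H : ι → κ → ℝ} (z : κ → ℝ)
    (hz : ∀ i, val H z i ≤ 0) (j : ℕ) : ∀ i ∈ (round (StrictOn H))^[j] ∅, val H z i = 0 := by
  induction j with
  | zero => simp
  | succ j ih =>
    rw [Function.iterate_succ_apply']
    exact round_sound _ z hz ih

theorem iterate_final [DecidableEq ι] [Fintype ι] (H : ι → κ → ℝ) (j : ℕ) :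
    StrictOn H ((round (StrictOn H))^[j] ∅) ((round (StrictOn H))^[j] ∅)ᶜ ∨
      j ≤ ((round (StrictOn H))^[j] ∅).card := by
  classical
  induction j with
  | zero => exact Or.inr (Nat.zero_le _)
  | succ j ih =>
    rw [Function.iterate_succ_apply']
    set I := (round (StrictOn H))^[j] ∅ with hI
    by_cases h : StrictOn H I Iᶜ
    · left
      have : round (StrictOn H) I = I := by
        unfold round
        exact if_pos h
      rwa [this]
    · right
      have hr : round (StrictOn H) I = I ∪ shrink (StrictOn H I) Finset.univ.toList Iᶜ := by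
        unfold round
        exact if_neg h
      obtain ⟨h1, h2, -⟩ := shrink_spec (StrictOn H I) (fun K K' => strictOn_mono)
        Finset.univ.toList Iᶜ h
      have hne : (shrink (StrictOn H I) Finset.univ.toList Iᶜ).Nonempty := by
        rw [Finset.nonempty_iff_ne_empty]
        intro h0
        rw [h0] at h1
        exact h1 (strictOn_empty H I)
      have hdisj : Disjoint I (shrink (StrictOn H I) Finset.univ.toList Iᶜ) :=
        Finset.disjoint_left.2 fun i hi hi' => Finset.mem_compl.1 (h2 hi') hi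
      rw [hr, Finset.card_union_of_disjoint hdisj]
      have := hne.card_pos
      have := ih.resolve_left h
      omega

theorem strictOn_final [DecidableEq ι] [Fintype ι] (H : ι → κ → ℝ) :
    StrictOn H ((round (StrictOn H))^[Fintype.card ι] ∅)
      ((round (StrictOn H))^[Fintype.card ι] ∅)ᶜ := by
  rcases iterate_final H (Fintype.card ι) with h | h
  · exact h
  · have : (round (StrictOn H))^[Fintype.card ι] ∅ = univ :=
      Finset.eq_univ_of_card _ (le_antisymm (Finset.card_le_univ _) h)
    rw [this, Finset.compl_univ]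
    exact strictOn_empty H _

end Reduction

/-- The homogenised system: the rows `A_i x - b_i s`, `i : Fin m`, and the row `-s`. -/
def hom (A : Fin m → Fin n → ℝ) (b : Fin m → ℝ) : Option (Fin m) → Option (Fin n) → ℝ
  | some i => fun l => l.elim (-b i) (A i)
  | none => fun l => l.elim (-1) (fun _ => 0)

lemma val_hom_some (A : Fin m → Fin n → ℝ) (b : Fin m → ℝ) (i : Fin m) (z : Option (Fin n) → ℝ) :
    val (hom A b) z (some i) = ∑ k, A i k * z (some k) - b i * z none := by
  simp [val, hom, Fintype.sum_option]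
  ring

lemma val_hom_none (A : Fin m → Fin n → ℝ) (b : Fin m → ℝ) (z : Option (Fin n) → ℝ) :
    val (hom A b) z none = - z none := by
  simp [val, hom, Fintype.sum_option]

/-- A parametrisation with `n + 1` parameters always exists. -/
theorem exists_param_fin (A : Fin m → Fin n → ℝ) (b : Fin m → ℝ) (I : Finset (Option (Fin m))) :
    ∃ P : Option (Fin n) → Fin (n + 1) → ℝ, Param (hom A b) I P := by
  obtain ⟨P, hP⟩ := exists_param (hom A b) I
  let e : Fin (n + 1) ≃ Option (Fin n) := finSuccEquiv n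
  have hval : ∀ w : Fin (n + 1) → ℝ, val (fun k l => P k (e l)) w = val P fun l => w (e.symm l) := by
    intro w
    funext k
    simp only [val]
    rw [← Equiv.sum_comp e]
    simp
  refine ⟨fun k l => P k (e l), fun z => (hP z).trans ⟨?_, ?_⟩⟩
  · rintro ⟨w, rfl⟩
    refine ⟨fun l => w (e l), ?_⟩
    rw [hval]
    simp
  · rintro ⟨w, rfl⟩
    exact ⟨_, hval w⟩

theorem answer (A : Fin m → Fin n → ℝ) (b : Fin m → ℝ) (I : Finset (Option (Fin m)))
    (hI : ∀ z, (∀ i, val (hom A b) z i ≤ 0) → ∀ i ∈ I, val (hom A b) z i = 0) (z : Option (Fin n) → ℝ) (hz1 : ∀ i ∈ I, val (hom A b) z i = 0)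
    (hz2 : ∀ i ∈ Iᶜ, val (hom A b) z i < 0) :
    ((∃ x : Fin n → ℝ, ∀ i, ∑ k, A i k * x k ≤ b i) ↔ none ∉ I) ∧
      (none ∉ I → 0 < z none ∧ ∀ i, ∑ k, A i k * (z (some k) / z none) ≤ b i) := by
  have hz : ∀ i, val (hom A b) z i ≤ 0 := fun i => by
    by_cases hi : i ∈ I
    · exact (hz1 i hi).le
    · exact (hz2 i (Finset.mem_compl.2 hi)).le
  have h2 : none ∉ I → 0 < z none ∧ ∀ i, ∑ k, A i k * (z (some k) / z none) ≤ b i := by
    intro hn
    have h0 := hz2 none (Finset.mem_compl.2 hn)
    rw [val_hom_none] at h0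
    have hs : 0 < z none := by linarith
    refine ⟨hs, fun i => ?_⟩
    have h1 := hz (some i)
    rw [val_hom_some] at h1
    have h3 : ∑ k, A i k * (z (some k) / z none) = (∑ k, A i k * z (some k)) / z none := by
      rw [Finset.sum_div]
      exact Finset.sum_congr rfl fun k _ => by ring
    rw [h3, div_le_iff₀ hs]
    linarith
  refine ⟨⟨?_, fun hn => ⟨_, (h2 hn).2⟩⟩, h2⟩
  rintro ⟨x, hx⟩ hn
  have := hI (fun l => l.elim 1 x) (fun i => by
    rcases i with _ | i
    · rw [val_hom_none]
      simp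
    · rw [val_hom_some]
      simpa using hx i) none hn
  rw [val_hom_none] at this
  simp at this

/-- A solver: it maps the data of a linear program to a vector. -/
def Solver : Type 1 := (α β : Type) → LP α β → β → ℝ

/-- `S` finds an optimal solution of every linear program with at most `m + 2 n + 5` constraints
and `n + 2` variables that has one and whose condition number is at most
`40 (n + 2) (m + n + 3)`. -/
def Solver.Exact (S : Solver) (m n : ℕ) : Prop :=
  ∀ (α β : Type) [Fintype α] [Fintype β] (d : LP α β),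
    Fintype.card α ≤ m + 2 * n + 5 → Fintype.card β = n + 2 →
    d.cond ≤ ((40 * (n + 2) * (m + n + 3) : ℕ) : ENNReal) →
    (∃ x, d.IsOptimal x) → d.IsOptimal (S α β d)

/-- The output of the solver for the program of `I` and `K`. -/
noncomputable def out (S : Solver) (H : Option (Fin m) → Option (Fin n) → ℝ)
    (P : Finset (Option (Fin m)) → Option (Fin n) → Fin (n + 1) → ℝ)
    (I K : Finset (Option (Fin m))) : Option (Fin (n + 1)) → ℝ :=
  S _ _ (query H K (P I))

/-- The answer read off from the output of the solver. -/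
def dec (S : Solver) (H : Option (Fin m) → Option (Fin n) → ℝ)
    (P : Finset (Option (Fin m)) → Option (Fin n) → Fin (n + 1) → ℝ)
    (I K : Finset (Option (Fin m))) : Prop :=
  out S H P I K none < 0

/-- The set of rows found by the procedure after `m + 1` rounds. -/
noncomputable def final (S : Solver) (H : Option (Fin m) → Option (Fin n) → ℝ)
    (P : Finset (Option (Fin m)) → Option (Fin n) → Fin (n + 1) → ℝ) : Finset (Option (Fin m)) :=
  (round (dec S H P))^[m + 1] ∅

/-- The vector `(x, s)` read off from the last output of the solver. -/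
noncomputable def point (S : Solver) (H : Option (Fin m) → Option (Fin n) → ℝ)
    (P : Finset (Option (Fin m)) → Option (Fin n) → Fin (n + 1) → ℝ) : Option (Fin n) → ℝ :=
  val (P (final S H P)) fun l => out S H P (final S H P) (final S H P)ᶜ (some l)

theorem result (m n : ℕ) (A : Fin m → Fin n → ℝ) (b : Fin m → ℝ) :
    (∃ P : Finset (Option (Fin m)) → Option (Fin n) → Fin (n + 1) → ℝ,
      ∀ I, Param (hom A b) I (P I)) ∧
    ∀ P : Finset (Option (Fin m)) → Option (Fin n) → Fin (n + 1) → ℝ,
      (∀ I, Param (hom A b) I (P I)) → ∀ S : Solver, S.Exact m n →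
      ((∃ x : Fin n → ℝ, ∀ i, ∑ k, A i k * x k ≤ b i) ↔ none ∉ final S (hom A b) P) ∧
      (none ∉ final S (hom A b) P →
        ∀ i, ∑ k, A i k * (point S (hom A b) P (some k) / point S (hom A b) P none) ≤ b i) := by
  refine ⟨⟨fun I => (exists_param_fin A b I).choose, fun I => (exists_param_fin A b I).choose_spec⟩,
    fun P hP S hS => ?_⟩
  have hopt : ∀ I K, (query (hom A b) K (P I)).IsOptimal (out S (hom A b) P I K) := by
    intro I K
    obtain ⟨h1, h2, -⟩ := query_spec (hom A b) I K (P I) (hP I)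
    have hK : K.card ≤ m + 1 := by
      simpa using Finset.card_le_univ K
    refine hS _ _ _ ?_ ?_ (h1.trans ?_) h2
    · simp only [Fintype.card_sum, Fintype.card_coe, Fintype.card_option, Fintype.card_fin]
      omega
    · simp
    · rw [Fintype.card_fin]
      refine Nat.cast_le.2 ?_
      exact Nat.mul_le_mul (by omega) (by omega)
  have hdec : dec S (hom A b) P = StrictOn (hom A b) := by
    funext I K
    obtain ⟨-, -, h3⟩ := query_spec (hom A b) I K (P I) (hP I)
    exact propext ((h3 _ (hopt I K)).1).symm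
  have hfin : final S (hom A b) P = (round (StrictOn (hom A b)))^[m + 1] ∅ := by
    unfold final
    rw [hdec]
  have hst : StrictOn (hom A b) (final S (hom A b) P) (final S (hom A b) P)ᶜ := by
    have := strictOn_final (hom A b)
    rw [Fintype.card_option, Fintype.card_fin] at this
    rwa [hfin]
  obtain ⟨-, -, h3⟩ := query_spec (hom A b) (final S (hom A b) P) (final S (hom A b) P)ᶜ
    (P (final S (hom A b) P)) (hP _)
  obtain ⟨h4, h5⟩ := h3 _ (hopt _ _)
  obtain ⟨h6, h7⟩ := h5 (h4.1 hst)
  have hans := answer A b (final S (hom A b) P)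
    (fun z hz => by rw [hfin]; exact iterate_sound z hz _) (point S (hom A b) P) h6 h7
  exact ⟨hans.1, fun hn => (hans.2 hn).2⟩

end Pool.Agent.Results.MP_5f1c40_lc.WellPosed
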